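import Pool.Agent.Lib.MP_b2ebfc_lc.Base

/-!
# Module CANCEL: colouring the cycles with the two colours det and per cancels all pairs with two or more cycles
-/

set_option autoImplicit false

namespace Pool.Agent.Lib.MP_b2ebfc_lc.H75

open Finset Pool.Agent.Lib.MP_b2ebfc_lc

namespace Cancel

section Parity

open Classical

variable {X : Type} [Fintype X]

/-- Invariant sets. -/
def Inv (π : Equiv.Perm X) (S : Finset X) : Prop := ∀ x, π x ∈ S ↔ x ∈ S

/-- The part of a permutation on an invariant set. -/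
noncomputable def part (π : Equiv.Perm X) (S : Finset X) : Equiv.Perm X :=
  if h : Inv π S then Equiv.Perm.ofSubtype (π.subtypePerm (p := fun x => x ∈ S) h) else 1

lemma part_apply {π : Equiv.Perm X} {S : Finset X} (h : Inv π S) (x : X) :
    part π S x = if x ∈ S then π x else x := by
  unfold part
  rw [dif_pos h]
  by_cases hx : x ∈ S
  · rw [if_pos hx, Equiv.Perm.ofSubtype_apply_of_mem _ hx]
    rfl
  · rw [if_neg hx, Equiv.Perm.ofSubtype_apply_of_not_mem _ hx]

/-- The sign of the part of a permutation on an invariant set. -/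
noncomputable def sg (π : Equiv.Perm X) (S : Finset X) : ℤ :=
  ((Equiv.Perm.sign (part π S) : ℤˣ) : ℤ)

/-- The weight of an invariant set. -/
noncomputable def eps (π : Equiv.Perm X) (S : Finset X) : ℤ := (-1) ^ S.card * sg π S

/-- The orbit. -/
noncomputable def orb (π : Equiv.Perm X) (y : X) : Finset X := univ.filter fun z => π.SameCycle y z

lemma inv_orb (π : Equiv.Perm X) (y : X) : Inv π (orb π y) := by
  intro z
  simp [orb]

lemma part_orb (π : Equiv.Perm X) (y : X) : part π (orb π y) = π.cycleOf y := by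
  ext z
  rw [part_apply (inv_orb π y), Equiv.Perm.cycleOf_apply]
  simp [orb]

lemma eps_orb (π : Equiv.Perm X) (y : X) : eps π (orb π y) = -1 := by
  unfold eps sg
  rw [part_orb]
  by_cases hy : π y = y
  · rw [(Equiv.Perm.cycleOf_eq_one_iff π).2 hy]
    have h1 : orb π y = {y} := by
      ext z
      simp only [orb, Finset.mem_filter, Finset.mem_univ, true_and, Finset.mem_singleton]
      constructor
      · rintro ⟨n, hn⟩
        rw [← hn, Equiv.Perm.zpow_apply_eq_self_of_apply_eq_self hy]
      · rintro rfl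
        exact Equiv.Perm.SameCycle.refl _ _
    rw [h1]
    simp
  · rw [(Equiv.Perm.isCycle_cycleOf π hy).sign]
    have h1 : (π.cycleOf y).support = orb π y := by
      ext z
      rw [Equiv.Perm.mem_support_cycleOf_iff' hy]
      simp [orb]
    rw [h1]
    push_cast
    rw [mul_neg, ← mul_pow]
    norm_num

lemma inv_union {π : Equiv.Perm X} {S T : Finset X} (hS : Inv π S) (hT : Inv π T) :
    Inv π (S ∪ T) := by
  intro x
  rw [Finset.mem_union, Finset.mem_union, hS x, hT x]

lemma inv_sdiff {π : Equiv.Perm X} {S T : Finset X} (hS : Inv π S) (hT : Inv π T) :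
    Inv π (S \ T) := by
  intro x
  rw [Finset.mem_sdiff, Finset.mem_sdiff, hS x, hT x]

lemma part_union {π : Equiv.Perm X} {S T : Finset X} (hS : Inv π S) (hT : Inv π T)
    (hd : Disjoint S T) : part π (S ∪ T) = part π S * part π T := by
  ext x
  rw [Equiv.Perm.mul_apply, part_apply (inv_union hS hT), part_apply hT, part_apply hS]
  by_cases hx : x ∈ T
  · have h1 : π x ∉ S := fun h =>
      Finset.disjoint_left.1 hd h ((hT x).2 hx)
    simp [hx, h1]
  · simp [hx]

lemma eps_union {π : Equiv.Perm X} {S T : Finset X} (hS : Inv π S) (hT : Inv π T)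
    (hd : Disjoint S T) : eps π (S ∪ T) = eps π S * eps π T := by
  unfold eps sg
  rw [part_union hS hT hd, Equiv.Perm.sign_mul, Finset.card_union_of_disjoint hd, pow_add]
  push_cast
  ring

lemma eps_symmDiff {π : Equiv.Perm X} {S : Finset X} (hS : Inv π S) (y : X) :
    Inv π (symmDiff S (orb π y)) ∧ eps π S + eps π (symmDiff S (orb π y)) = 0 := by
  by_cases hy : y ∈ S
  · have hsub : orb π y ⊆ S := by
      intro z hz
      simp only [orb, Finset.mem_filter, Finset.mem_univ, true_and] at hz
      obtain ⟨n, hn⟩ := hz.exists_nat_pow_eq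
      rw [← hn]
      have : ∀ m : ℕ, (π ^ m) y ∈ S := by
        intro m
        induction m with
        | zero => simpa using hy
        | succ m ih => rw [pow_succ', Equiv.Perm.mul_apply, hS]; exact ih
      exact this n
    have h1 : symmDiff S (orb π y) = S \ orb π y := by
      rw [symmDiff_def, Finset.sup_eq_union, Finset.sdiff_eq_empty_iff_subset.2 hsub,
        Finset.union_empty]
    have h2 := inv_sdiff hS (inv_orb π y)
    rw [h1]
    refine ⟨h2, ?_⟩
    have h3 : eps π S = eps π (S \ orb π y) * eps π (orb π y) := by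
      rw [← eps_union h2 (inv_orb π y) Finset.sdiff_disjoint, Finset.sdiff_union_of_subset hsub]
    rw [h3, eps_orb]
    ring
  · have hd : Disjoint S (orb π y) := by
      rw [Finset.disjoint_left]
      intro z hz hz'
      apply hy
      simp only [orb, Finset.mem_filter, Finset.mem_univ, true_and] at hz'
      obtain ⟨n, hn⟩ := hz'.symm.exists_nat_pow_eq
      rw [← hn]
      have : ∀ m : ℕ, (π ^ m) z ∈ S := by
        intro m
        induction m with
        | zero => simpa using hz
        | succ m ih => rw [pow_succ', Equiv.Perm.mul_apply, hS]; exact ih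
      exact this n
    have h1 : symmDiff S (orb π y) = S ∪ orb π y := by
      rw [symmDiff_def, Finset.sup_eq_union, Finset.sdiff_eq_self_of_disjoint hd,
        Finset.sdiff_eq_self_of_disjoint hd.symm]
    rw [h1]
    refine ⟨inv_union hS (inv_orb π y), ?_⟩
    rw [eps_union hS (inv_orb π y) hd, eps_orb]
    ring

lemma mem_of_inv {π : Equiv.Perm X} {S : Finset X} (hS : Inv π S) {x y : X}
    (h : π.SameCycle x y) (hx : x ∈ S) : y ∈ S := by
  obtain ⟨n, hn⟩ := h.exists_nat_pow_eq
  rw [← hn]
  have : ∀ m : ℕ, (π ^ m) x ∈ S := by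
    intro m
    induction m with
    | zero => simpa using hx
    | succ m ih => rw [pow_succ', Equiv.Perm.mul_apply, hS]; exact ih
  exact this n

/-- For every `x`, the sum over the invariant sets that do not contain `x`. -/
lemma sum_avoid (π : Equiv.Perm X) (x : X) :
    ∑ S ∈ univ.filter (fun S : Finset X => Inv π S ∧ x ∉ S), eps π S =
      if (∀ a b, π.SameCycle a b) then 1 else 0 := by
  by_cases hc : ∀ a b, π.SameCycle a b
  · rw [if_pos hc]
    have h1 : univ.filter (fun S : Finset X => Inv π S ∧ x ∉ S) = {∅} := by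
      ext S
      simp only [Finset.mem_filter, Finset.mem_univ, true_and, Finset.mem_singleton]
      constructor
      · rintro ⟨hS, hx⟩
        rw [Finset.eq_empty_iff_forall_notMem]
        intro y hy
        exact hx (mem_of_inv hS (hc y x) hy)
      · rintro rfl
        exact ⟨fun y => by simp, by simp⟩
    rw [h1, Finset.sum_singleton]
    unfold eps sg
    have h2 : part π (∅ : Finset X) = 1 := by
      ext y
      rw [part_apply (fun y => by simp)]
      simp
    rw [h2]
    simp
  · rw [if_neg hc]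
    obtain ⟨y, hy⟩ : ∃ y, ¬ π.SameCycle x y := by
      by_contra hcon
      push Not at hcon
      exact hc fun a b => (hcon a).symm.trans (hcon b)
    apply Finset.sum_involution (fun S _ => symmDiff S (orb π y))
    · intro S hS
      exact (eps_symmDiff (Finset.mem_filter.1 hS).2.1 y).2
    · intro S hS _ h
      have h1 : y ∈ orb π y := by
        simp only [orb, Finset.mem_filter, Finset.mem_univ, true_and]
        exact Equiv.Perm.SameCycle.refl _ _
      have h2 : y ∈ symmDiff S (orb π y) ↔ y ∈ S := by rw [h]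
      rw [Finset.mem_symmDiff] at h2
      tauto
    · intro S hS
      rw [Finset.mem_filter] at hS ⊢
      refine ⟨Finset.mem_univ _, (eps_symmDiff hS.2.1 y).1, ?_⟩
      rw [Finset.mem_symmDiff]
      have h1 : x ∉ orb π y := by
        simp only [orb, Finset.mem_filter, Finset.mem_univ, true_and]
        exact fun h => hy h.symm
      have h2 := hS.2.2
      tauto
    · intro S hS
      simp

/-- The cancellation. -/
lemma parity (π : Equiv.Perm X) :
    ∑ S ∈ univ.filter (fun S : Finset X => Inv π S),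
      ((Fintype.card X : ℤ) - S.card) * eps π S =
      (Fintype.card X : ℤ) * if (∀ a b, π.SameCycle a b) then 1 else 0 := by
  have h1 : ∀ S : Finset X, ((Fintype.card X : ℤ) - S.card) * eps π S =
      ∑ x : X, if x ∉ S then eps π S else 0 := by
    intro S
    rw [← Finset.sum_filter, Finset.sum_const, nsmul_eq_mul]
    congr 1
    have h2 : univ.filter (fun x => x ∉ S) = Sᶜ := by
      ext x; simp
    rw [h2, Finset.card_compl, Nat.cast_sub (Finset.card_le_univ S)]
  rw [Finset.sum_congr rfl fun S _ => h1 S, Finset.sum_comm]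
  have h3 : ∀ x : X, ∑ S ∈ univ.filter (fun S : Finset X => Inv π S),
      (if x ∉ S then eps π S else 0) = if (∀ a b, π.SameCycle a b) then 1 else 0 := by
    intro x
    rw [← sum_avoid π x, ← Finset.sum_filter, Finset.filter_filter]
  rw [Finset.sum_congr rfl fun x _ => h3 x, Finset.sum_const, Finset.card_univ, nsmul_eq_mul]

end Parity

section Glue

variable {X Y : Type} [Fintype X] [DecidableEq X] [Fintype Y] [DecidableEq Y]

/-- Glue two bijections. -/
def glue (S : Finset X) (T : Finset Y) (f : S ≃ T) (g : (Sᶜ : Finset X) ≃ (Tᶜ : Finset Y)) :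
    X ≃ Y where
  toFun x := if h : x ∈ S then (f ⟨x, h⟩ : Y) else g ⟨x, Finset.mem_compl.2 h⟩
  invFun y := if h : y ∈ T then (f.symm ⟨y, h⟩ : X) else g.symm ⟨y, Finset.mem_compl.2 h⟩
  left_inv x := by
    by_cases h : x ∈ S
    · simp [h]
    · have h1 : (g ⟨x, Finset.mem_compl.2 h⟩ : Y) ∉ T := Finset.mem_compl.1 (g _).2
      simp [h, h1]
  right_inv y := by
    by_cases h : y ∈ T
    · simp [h]
    · have h1 : (g.symm ⟨y, Finset.mem_compl.2 h⟩ : X) ∉ S := Finset.mem_compl.1 (g.symm _).2
      simp [h, h1]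

lemma glue_mem {S : Finset X} {T : Finset Y} (f : S ≃ T) (g : (Sᶜ : Finset X) ≃ (Tᶜ : Finset Y))
    {x : X} (h : x ∈ S) : glue S T f g x = f ⟨x, h⟩ := dif_pos h

lemma glue_not_mem {S : Finset X} {T : Finset Y} (f : S ≃ T)
    (g : (Sᶜ : Finset X) ≃ (Tᶜ : Finset Y))
    {x : X} (h : x ∉ S) : glue S T f g x = g ⟨x, Finset.mem_compl.2 h⟩ := dif_neg h

/-- `σ` maps `S` onto `T`. -/
def Maps (S : Finset X) (T : Finset Y) (σ : X ≃ Y) : Prop := ∀ x, σ x ∈ T ↔ x ∈ S

lemma glue_maps {S : Finset X} {T : Finset Y} (f : S ≃ T)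
    (g : (Sᶜ : Finset X) ≃ (Tᶜ : Finset Y)) : Maps S T (glue S T f g) := by
  intro x
  by_cases h : x ∈ S
  · rw [glue_mem f g h]
    simp [h]
  · rw [glue_not_mem f g h]
    have h1 : (g ⟨x, Finset.mem_compl.2 h⟩ : Y) ∉ T := Finset.mem_compl.1 (g _).2
    simp [h, h1]

/-- The bijection behind `glue`. -/
def glueEquiv (S : Finset X) (T : Finset Y) :
    ((S ≃ T) × ((Sᶜ : Finset X) ≃ (Tᶜ : Finset Y))) ≃ {σ : X ≃ Y // Maps S T σ} where
  toFun p := ⟨glue S T p.1 p.2, glue_maps _ _⟩
  invFun σ := (σ.1.subtypeEquiv fun x => (σ.2 x).symm,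
    σ.1.subtypeEquiv fun x => by rw [Finset.mem_compl, Finset.mem_compl, σ.2 x])
  left_inv := by
    rintro ⟨f, g⟩
    refine Prod.ext ?_ ?_
    · ext x
      simp [glue_mem f g x.2]
    · ext x
      have hx : (x : X) ∉ S := Finset.mem_compl.1 x.2
      simp [glue_not_mem f g hx]
  right_inv := by
    rintro ⟨σ, hσ⟩
    apply Subtype.ext
    ext x
    by_cases h : x ∈ S
    · simp [glue_mem _ _ h]
    · simp [glue_not_mem _ _ h]

open Classical in
lemma sum_glue (S : Finset X) (T : Finset Y) (G : (X ≃ Y) → ℤ) :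
    ∑ f : (S ≃ T), ∑ g : ((Sᶜ : Finset X) ≃ (Tᶜ : Finset Y)), G (glue S T f g) =
      ∑ σ : (X ≃ Y), if Maps S T σ then G σ else 0 := by
  rw [← Finset.sum_filter, ← Fintype.sum_prod_type',
    Finset.sum_subtype (univ.filter (Maps S T)) (p := Maps S T) (by simp)]
  exact Fintype.sum_equiv (glueEquiv S T) _ _ fun _ => rfl

lemma prod_glue (M : X → Y → ℤ) {S : Finset X} {T : Finset Y} (f : S ≃ T)
    (g : (Sᶜ : Finset X) ≃ (Tᶜ : Finset Y)) :
    ∏ x : X, M x (glue S T f g x) =
      (∏ x : S, M x (f x)) * ∏ x : (Sᶜ : Finset X), M x (g x) := by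
  rw [← Finset.prod_mul_prod_compl S]
  congr 1
  · rw [← Finset.prod_coe_sort]
    apply Finset.prod_congr rfl
    intro x _
    rw [glue_mem f g x.2]
  · rw [← Finset.prod_coe_sort]
    apply Finset.prod_congr rfl
    intro x _
    rw [glue_not_mem f g (Finset.mem_compl.1 x.2)]

lemma glue_inv {S : Finset X} {T : Finset Y} {σ τ : X ≃ Y} (hσ : Maps S T σ) (hτ : Maps S T τ) :
    Inv (σ.trans τ.symm) S := by
  intro x
  rw [← hτ, ← hσ x]
  simp

lemma sign_glue {S : Finset X} {T : Finset Y} (f f' : S ≃ T)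
    (g g' : (Sᶜ : Finset X) ≃ (Tᶜ : Finset Y)) :
    sg ((glue S T f g).trans (glue S T f' g').symm) S =
      ((Equiv.Perm.sign (f.trans f'.symm : Equiv.Perm S) : ℤˣ) : ℤ) := by
  have h := glue_inv (glue_maps f g) (glue_maps f' g')
  have h1 : part ((glue S T f g).trans (glue S T f' g').symm) S =
      Equiv.Perm.ofSubtype (f.trans f'.symm : Equiv.Perm S) := by
    ext x
    rw [part_apply h]
    by_cases hx : x ∈ S
    · rw [if_pos hx, Equiv.Perm.ofSubtype_apply_of_mem _ hx, Equiv.trans_apply,
        Equiv.symm_apply_eq, glue_mem f g hx, Equiv.trans_apply, glue_mem f' g' (Subtype.prop _)]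
      simp
    · rw [if_neg hx, Equiv.Perm.ofSubtype_apply_of_not_mem _ hx]
  have h2 : sg ((glue S T f g).trans (glue S T f' g').symm) S = ((Equiv.Perm.sign
      (part ((glue S T f g).trans (glue S T f' g').symm) S) : ℤˣ) : ℤ) := by
    unfold sg
    congr 2
    congr 1
    exact Subsingleton.elim _ _
  rw [h2, h1, Equiv.Perm.sign_ofSubtype]

open Classical in
/-- The product of a squared permanent and a squared determinant as a sum over pairs. -/
lemma perm_dsq (M : X → Y → ℤ) (S : Finset X) (T : Finset Y) :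
    perm M Sᶜ Tᶜ ^ 2 * dsq M S T = ∑ σ : (X ≃ Y), ∑ τ : (X ≃ Y),
      if Maps S T σ ∧ Maps S T τ then
        sg (σ.trans τ.symm) S *
          ((∏ x, M x (σ x)) * ∏ x, M x (τ x)) else 0 := by
  have h1 : ∀ σ : (X ≃ Y), (∑ τ : (X ≃ Y), if Maps S T σ ∧ Maps S T τ then
        sg (σ.trans τ.symm) S *
          ((∏ x, M x (σ x)) * ∏ x, M x (τ x)) else 0) =
      if Maps S T σ then (∑ f' : (S ≃ T), ∑ g' : ((Sᶜ : Finset X) ≃ (Tᶜ : Finset Y)),
        sg (σ.trans (glue S T f' g').symm) S *
          ((∏ x, M x (σ x)) * ∏ x, M x (glue S T f' g' x))) else 0 := by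
    intro σ
    by_cases hσ : Maps S T σ
    · rw [if_pos hσ, sum_glue S T (fun τ => sg (σ.trans τ.symm) S *
          ((∏ x, M x (σ x)) * ∏ x, M x (τ x)))]
      simp only [hσ, true_and]
    · simp [hσ]
  rw [Finset.sum_congr rfl fun σ _ => h1 σ, ← sum_glue S T (fun σ => ∑ f' : (S ≃ T),
    ∑ g' : ((Sᶜ : Finset X) ≃ (Tᶜ : Finset Y)),
        sg (σ.trans (glue S T f' g').symm) S *
          ((∏ x, M x (σ x)) * ∏ x, M x (glue S T f' g' x)))]
  unfold perm dsq
  rw [Finset.mul_sum]
  apply Finset.sum_congr rfl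
  intro f _
  rw [Finset.mul_sum, Finset.sum_comm]
  apply Finset.sum_congr rfl
  intro f' _
  rw [sq, Finset.sum_mul_sum, Finset.sum_mul]
  apply Finset.sum_congr rfl
  intro g _
  rw [Finset.sum_mul]
  apply Finset.sum_congr rfl
  intro g' _
  rw [sign_glue, prod_glue, prod_glue]
  push_cast
  ring

end Glue

section Relabel

variable {α β X Y : Type} [DecidableEq α] [DecidableEq β] [DecidableEq X] [DecidableEq Y]

/-- The bijection of a finite set with its image. -/
noncomputable def mapEq (i : X ↪ α) (S : Finset X) : S ≃ (S.map i : Finset α) :=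
  Equiv.ofBijective (fun x => ⟨i x, Finset.mem_map_of_mem i x.2⟩) (by
    constructor
    · intro x y h
      exact Subtype.ext (i.injective (congrArg Subtype.val h))
    · rintro ⟨a, ha⟩
      obtain ⟨x, hx, rfl⟩ := Finset.mem_map.1 ha
      exact ⟨⟨x, hx⟩, rfl⟩)

lemma mapEq_apply (i : X ↪ α) (S : Finset X) (x : S) : (mapEq i S x : α) = i x := rfl

lemma perm_map (M : α → β → ℤ) (i : X ↪ α) (j : Y ↪ β) (U : Finset X) (W : Finset Y) :
    perm M (U.map i) (W.map j) = perm (fun x y => M (i x) (j y)) U W := by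
  unfold perm
  symm
  apply Fintype.sum_equiv (Equiv.equivCongr (mapEq i U) (mapEq j W))
  intro f
  apply Fintype.prod_equiv (mapEq i U)
  intro x
  simp [Equiv.equivCongr, mapEq_apply]

lemma dsq_map (M : α → β → ℤ) (i : X ↪ α) (j : Y ↪ β) (U : Finset X) (W : Finset Y) :
    dsq M (U.map i) (W.map j) = dsq (fun x y => M (i x) (j y)) U W := by
  unfold dsq
  symm
  apply Fintype.sum_equiv (Equiv.equivCongr (mapEq i U) (mapEq j W))
  intro f
  apply Fintype.sum_equiv (Equiv.equivCongr (mapEq i U) (mapEq j W))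
  intro f'
  have h1 : ((Equiv.equivCongr (mapEq i U) (mapEq j W) f).trans
      (Equiv.equivCongr (mapEq i U) (mapEq j W) f').symm : Equiv.Perm (U.map i : Finset α)) =
      (mapEq i U).permCongr (f.trans f'.symm) := by
    ext x
    simp [Equiv.equivCongr, Equiv.permCongr_apply]
  have h2 : ∀ f : (U ≃ W), ∏ x : U, M (i x) (j (f x)) =
      ∏ x : (U.map i : Finset α), M x (Equiv.equivCongr (mapEq i U) (mapEq j W) f x) := by
    intro f
    apply Fintype.prod_equiv (mapEq i U)
    intro x
    simp [Equiv.equivCongr, mapEq_apply]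
  rw [h1, Equiv.Perm.sign_permCongr, h2 f, h2 f']

lemma dsq_eq_zero (M : α → β → ℤ) {S : Finset α} {T : Finset β} (h : S.card ≠ T.card) :
    dsq M S T = 0 := by
  have : IsEmpty (S ≃ T) := ⟨fun f => h (by simpa using Fintype.card_congr f)⟩
  unfold dsq
  exact Fintype.sum_empty _

end Relabel

section Types

variable {X Y : Type} [Fintype X] [DecidableEq X] [Fintype Y] [DecidableEq Y]

lemma maps_iff (σ : X ≃ Y) (S : Finset X) (T : Finset Y) :
    Maps S T σ ↔ T = S.map σ.toEmbedding := by
  constructor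
  · intro h
    ext y
    rw [← σ.apply_symm_apply y, h]
    simp
  · rintro rfl x
    simp

lemma maps_map_iff (σ τ : X ≃ Y) (S : Finset X) :
    Maps S (S.map σ.toEmbedding) τ ↔ Inv (σ.trans τ.symm) S := by
  constructor
  · intro h
    exact glue_inv ((maps_iff σ S _).2 rfl) h
  · intro h x
    have h1 := h (σ.symm (τ x))
    simp only [Equiv.trans_apply, Equiv.apply_symm_apply, Equiv.symm_apply_apply] at h1
    rw [h1]
    simp

open Classical in
/-- The identity for fixed vertex sets. -/
lemma types (M : X → Y → ℤ) :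
    ∑ S : Finset X, ∑ T : Finset Y, ((Fintype.card X : ℤ) - S.card) * (-1) ^ S.card *
      (perm M Sᶜ Tᶜ ^ 2 * dsq M S T) =
    (Fintype.card X : ℤ) * ∑ σ : (X ≃ Y), ∑ τ : (X ≃ Y),
      if (∀ a b, Equiv.Perm.SameCycle (σ.trans τ.symm) a b) then
        ((∏ x, M x (σ x)) * ∏ x, M x (τ x)) else 0 := by
  have h1 : ∀ S : Finset X, ∑ T : Finset Y, ((Fintype.card X : ℤ) - S.card) * (-1) ^ S.card *
      (perm M Sᶜ Tᶜ ^ 2 * dsq M S T) = ∑ σ : (X ≃ Y), ∑ τ : (X ≃ Y),
      if Inv (σ.trans τ.symm) S then (((Fintype.card X : ℤ) - S.card) *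
        eps (σ.trans τ.symm) S) * ((∏ x, M x (σ x)) * ∏ x, M x (τ x)) else 0 := by
    intro S
    have h2 : ∀ T : Finset Y, ((Fintype.card X : ℤ) - S.card) * (-1) ^ S.card *
      (perm M Sᶜ Tᶜ ^ 2 * dsq M S T) = ∑ σ : (X ≃ Y), ∑ τ : (X ≃ Y),
      if T = S.map σ.toEmbedding then (if Inv (σ.trans τ.symm) S then
        (((Fintype.card X : ℤ) - S.card) *
        eps (σ.trans τ.symm) S) * ((∏ x, M x (σ x)) * ∏ x, M x (τ x)) else 0) else 0 := by
      intro T
      rw [perm_dsq, Finset.mul_sum]
      apply Finset.sum_congr rfl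
      intro σ _
      rw [Finset.mul_sum]
      apply Finset.sum_congr rfl
      intro τ _
      by_cases hT : T = S.map σ.toEmbedding
      · subst hT
        rw [if_pos rfl]
        have h3 : Maps S (S.map σ.toEmbedding) σ := (maps_iff σ S _).2 rfl
        by_cases h4 : Inv (σ.trans τ.symm) S
        · rw [if_pos h4, if_pos ⟨h3, (maps_map_iff σ τ S).2 h4⟩]
          unfold eps
          ring
        · rw [if_neg h4, if_neg (fun h => h4 ((maps_map_iff σ τ S).1 h.2)), mul_zero]
      · rw [if_neg hT, if_neg (fun h => hT ((maps_iff σ S T).1 h.1)), mul_zero]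
    rw [Finset.sum_congr rfl fun T _ => h2 T, Finset.sum_comm]
    apply Finset.sum_congr rfl
    intro σ _
    rw [Finset.sum_comm]
    apply Finset.sum_congr rfl
    intro τ _
    rw [Finset.sum_ite_eq' univ (S.map σ.toEmbedding) (fun _ => _)]
    simp
  rw [Finset.sum_congr rfl fun S _ => h1 S, Finset.sum_comm, Finset.mul_sum]
  apply Finset.sum_congr rfl
  intro σ _
  rw [Finset.sum_comm, Finset.mul_sum]
  apply Finset.sum_congr rfl
  intro τ _
  rw [← Finset.sum_filter, ← Finset.sum_mul, parity]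
  by_cases hc : ∀ a b, Equiv.Perm.SameCycle (σ.trans τ.symm) a b
  · rw [if_pos hc, if_pos hc]; ring
  · rw [if_neg hc, if_neg hc]; ring

end Types

section Main

variable {α β : Type} [Fintype α] [DecidableEq α] [Fintype β] [DecidableEq β]

/-- Regrouping pairs of disjoint sets by their union. -/
lemma regroup {γ : Type} [Fintype γ] [DecidableEq γ] (u j : ℕ) (h : Finset γ → Finset γ → ℤ) :
    ∑ U ∈ powersetCard u (univ : Finset γ), ∑ S ∈ powersetCard j Uᶜ, h U S =
      ∑ A ∈ powersetCard (u + j) (univ : Finset γ), ∑ S ∈ powersetCard j A, h (A \ S) S := by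
  rw [Finset.sum_sigma', Finset.sum_sigma']
  refine Finset.sum_bij' (fun x _ => (⟨x.1 ∪ x.2, x.2⟩ : (_ : Finset γ) × Finset γ))
    (fun x _ => (⟨x.1 \ x.2, x.2⟩ : (_ : Finset γ) × Finset γ)) ?_ ?_ ?_ ?_ ?_
  · rintro ⟨U, S⟩ hx
    simp only [Finset.mem_sigma, Finset.mem_powersetCard, Finset.subset_univ, true_and] at hx ⊢
    have hd : Disjoint U S := by
      rw [Finset.disjoint_left]
      intro x hx1 hx2
      exact Finset.mem_compl.1 (hx.2.1 hx2) hx1
    rw [Finset.card_union_of_disjoint hd]
    exact ⟨by omega, Finset.subset_union_right, hx.2.2⟩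
  · rintro ⟨A, S⟩ hx
    simp only [Finset.mem_sigma, Finset.mem_powersetCard, Finset.subset_univ, true_and] at hx ⊢
    rw [Finset.card_sdiff_of_subset hx.2.1]
    refine ⟨by omega, ?_, hx.2.2⟩
    intro x hx1
    simp [hx1]
  · rintro ⟨U, S⟩ hx
    simp only [Finset.mem_sigma, Finset.mem_powersetCard, Finset.subset_univ, true_and] at hx
    have hd : Disjoint U S := by
      rw [Finset.disjoint_left]
      intro x hx1 hx2
      exact Finset.mem_compl.1 (hx.2.1 hx2) hx1
    simp only [Finset.union_sdiff_cancel_right hd]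
  · rintro ⟨A, S⟩ hx
    simp only [Finset.mem_sigma, Finset.mem_powersetCard, Finset.subset_univ, true_and] at hx
    simp only [Finset.sdiff_union_of_subset hx.2.1]
  · rintro ⟨U, S⟩ hx
    simp only [Finset.mem_sigma, Finset.mem_powersetCard, Finset.subset_univ, true_and] at hx
    have hd : Disjoint U S := by
      rw [Finset.disjoint_left]
      intro x hx1 hx2
      exact Finset.mem_compl.1 (hx.2.1 hx2) hx1
    simp only [Finset.union_sdiff_cancel_right hd]

lemma sum_powersetCard_sub {γ : Type} [DecidableEq γ] (A : Finset γ) (j : ℕ)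
    (h : Finset γ → ℤ) :
    ∑ S ∈ powersetCard j A, h S =
      ∑ S ∈ powersetCard j (univ : Finset A), h (S.map (Function.Embedding.subtype (· ∈ A))) := by
  have h1 : A = (univ : Finset A).map (Function.Embedding.subtype (· ∈ A)) := by
    rw [Finset.univ_eq_attach, Finset.attach_map_val]
  conv_lhs => rw [h1]
  rw [Finset.powersetCard_map, Finset.sum_map]
  rfl

lemma sdiff_map {γ : Type} [DecidableEq γ] (A : Finset γ) (S : Finset A) :
    A \ S.map (Function.Embedding.subtype (· ∈ A)) =
      Sᶜ.map (Function.Embedding.subtype (· ∈ A)) := by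
  ext x
  simp only [Finset.mem_sdiff, Finset.mem_map, Finset.mem_compl, Function.Embedding.subtype_apply,
    Subtype.exists, exists_and_right, exists_eq_right, not_exists]
  constructor
  · rintro ⟨h1, h2⟩
    exact ⟨h1, h2 h1⟩
  · rintro ⟨h1, h2⟩
    exact ⟨h1, fun _ => h2⟩

lemma bigN_eq (M : α → β → ℤ) (j u : ℕ) :
    bigN M j u = ∑ A ∈ powersetCard (u + j) (univ : Finset α),
      ∑ B ∈ powersetCard (u + j) (univ : Finset β),
        ∑ S ∈ powersetCard j (univ : Finset A), ∑ T ∈ powersetCard j (univ : Finset B),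
          perm (fun (x : A) (y : B) => M x y) Sᶜ Tᶜ ^ 2 *
            dsq (fun (x : A) (y : B) => M x y) S T := by
  have h1 : bigN M j u = ∑ U ∈ powersetCard u (univ : Finset α), ∑ S ∈ powersetCard j Uᶜ,
      ∑ W ∈ powersetCard u (univ : Finset β), ∑ T ∈ powersetCard j Wᶜ,
        perm M U W ^ 2 * dsq M S T := by
    unfold bigN
    apply Finset.sum_congr rfl
    intro U _
    rw [Finset.sum_comm]
    apply Finset.sum_congr rfl
    intro W _
    rw [Finset.mul_sum]
    apply Finset.sum_congr rfl
    intro S _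
    rw [Finset.mul_sum]
  rw [h1, regroup u j (fun U S => ∑ W ∈ powersetCard u (univ : Finset β),
    ∑ T ∈ powersetCard j Wᶜ, perm M U W ^ 2 * dsq M S T)]
  apply Finset.sum_congr rfl
  intro A _
  have h2 : ∀ S : Finset α, ∑ W ∈ powersetCard u (univ : Finset β),
      ∑ T ∈ powersetCard j Wᶜ, perm M (A \ S) W ^ 2 * dsq M S T =
      ∑ B ∈ powersetCard (u + j) (univ : Finset β), ∑ T ∈ powersetCard j B,
        perm M (A \ S) (B \ T) ^ 2 * dsq M S T := fun S =>
    regroup u j (fun W T => perm M (A \ S) W ^ 2 * dsq M S T)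
  rw [Finset.sum_congr rfl fun S _ => h2 S, Finset.sum_comm]
  apply Finset.sum_congr rfl
  intro B _
  rw [sum_powersetCard_sub A j]
  apply Finset.sum_congr rfl
  intro S _
  rw [sum_powersetCard_sub B j]
  apply Finset.sum_congr rfl
  intro T _
  rw [sdiff_map, sdiff_map, perm_map, dsq_map]
  rfl

end Main

end Cancel

open Cancel in
/-- CANCEL. -/
theorem cancel : CancelStatement := by
  intro α β _ _ _ _ M k hk
  classical
  have h1 : ∀ u ∈ range (k + 1), (-1 : ℤ) ^ (k - u) * (u : ℤ) * bigN M (k - u) u =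
      ∑ A ∈ powersetCard k (univ : Finset α), ∑ B ∈ powersetCard k (univ : Finset β),
        ∑ S ∈ powersetCard (k - u) (univ : Finset A),
          ∑ T ∈ powersetCard (k - u) (univ : Finset B),
          (-1 : ℤ) ^ (k - u) * (u : ℤ) * (perm (fun (x : A) (y : B) => M x y) Sᶜ Tᶜ ^ 2 *
            dsq (fun (x : A) (y : B) => M x y) S T) := by
    intro u hu
    rw [Finset.mem_range] at hu
    have h2 : u + (k - u) = k := by omega
    rw [bigN_eq, h2]
    simp only [Finset.mul_sum]
  rw [Finset.sum_congr rfl h1, Finset.sum_comm]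
  unfold pairSum
  rw [Finset.mul_sum]
  apply Finset.sum_congr rfl
  intro A hA
  rw [Finset.sum_comm, Finset.mul_sum]
  apply Finset.sum_congr rfl
  intro B hB
  have hcA : Fintype.card A = k := by
    rw [Fintype.card_coe]; exact (Finset.mem_powersetCard.1 hA).2
  have h3 := types (fun (x : A) (y : B) => M x y)
  rw [hcA] at h3
  have h4 : (∑ σ : (A ≃ B), ∑ τ : (A ≃ B),
      if (∀ a b : A, Equiv.Perm.SameCycle (σ.trans τ.symm) a b) then
        ((∏ x : A, M x (σ x)) * ∏ x : A, M x (τ x)) else 0) =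
      ∑ σ : (A ≃ B), ∑ τ : (A ≃ B),
      if (∀ x y : A, Equiv.Perm.SameCycle (σ.trans τ.symm) x y) then
        ((∏ x : A, M x (σ x)) * ∏ x : A, M x (τ x)) else 0 := by
    congr!
  rw [← h4, ← h3]
  -- regroup the sum over `S` by cardinality
  have h5 : ∀ f : Finset A → ℤ, ∑ S : Finset A, f S =
      ∑ j ∈ range (k + 1), ∑ S ∈ powersetCard j (univ : Finset A), f S := by
    intro f
    rw [← Finset.powerset_univ, Finset.sum_powerset, Finset.card_univ, hcA]
  rw [h5]
  symm
  rw [← Finset.sum_range_reflect]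
  apply Finset.sum_congr rfl
  intro u hu
  rw [Finset.mem_range] at hu
  have h6 : k + 1 - 1 - u = k - u := by omega
  rw [h6]
  apply Finset.sum_congr rfl
  intro S hS
  have hSc : S.card = k - u := (Finset.mem_powersetCard.1 hS).2
  rw [hSc]
  have h7 : ((k : ℤ) - ((k - u : ℕ) : ℤ)) = u := by
    rw [Nat.cast_sub (by omega)]; ring
  rw [h7]
  rw [← Finset.sum_subset (Finset.subset_univ (powersetCard (k - u) (univ : Finset B)))]
  · apply Finset.sum_congr rfl
    intro T _
    ring
  · intro T _ hT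
    rw [dsq_eq_zero, mul_zero, mul_zero]
    intro h8
    apply hT
    rw [Finset.mem_powersetCard]
    exact ⟨Finset.subset_univ _, by rw [← h8, hSc]⟩

end Pool.Agent.Lib.MP_b2ebfc_lc.H75
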