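import Pool.Agent.Lib.MP_b2ebfc_lc.Base

/-!
# Module CYCLES: the pairs count the cycles of length `2k`, each twice
-/

set_option autoImplicit false

namespace Pool.Agent.Lib.MP_b2ebfc_lc.H75

open Finset Pool.Agent.Lib.MP_b2ebfc_lc

section Generic

variable {V : Type} {G : SimpleGraph V}

lemma fin_sub_eq_one {n : ℕ} (i j : Fin (n + 2)) :
    i - j = 1 ↔ i.val ≡ j.val + 1 [MOD (n + 2)] := by
  rw [sub_eq_iff_eq_add, Fin.ext_iff, Fin.val_add, Nat.ModEq, Nat.mod_eq_of_lt i.isLt,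
    Fin.val_one, Nat.add_comm 1]

/-- A cyclic sequence through all vertices of a graph with at most two neighbours at each vertex
gives an isomorphism with the cycle graph. -/
lemma iso_of_seq {N : ℕ} (hN : 3 ≤ N) (H : G.Subgraph) (F : ℕ → V)
    (hper : ∀ m m', F m = F m' ↔ m ≡ m' [MOD N]) (hsurj : ∀ v ∈ H.verts, ∃ m, F m = v)
    (hadj : ∀ m, H.Adj (F m) (F (m + 1)))
    (hdeg : ∀ u, ∃ p q, ∀ w, H.Adj u w → w = p ∨ w = q) :
    Nonempty (SimpleGraph.cycleGraph N ≃g H.coe) := by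
  obtain ⟨n, rfl⟩ : ∃ n, N = n + 2 := ⟨N - 2, by omega⟩
  have hmem : ∀ m, F m ∈ H.verts := fun m => (hadj m).fst_mem
  let f : Fin (n + 2) → H.verts := fun i => ⟨F i.val, hmem _⟩
  have hinj : Function.Injective f := by
    intro i j hij
    have h1 : F i.val = F j.val := congrArg Subtype.val hij
    rw [hper] at h1
    exact Fin.ext (Nat.ModEq.eq_of_lt_of_lt h1 i.isLt j.isLt)
  have hsu : Function.Surjective f := by
    rintro ⟨v, hv⟩
    obtain ⟨m, hm⟩ := hsurj v hv
    refine ⟨⟨m % (n + 2), Nat.mod_lt _ (by omega)⟩, Subtype.ext ?_⟩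
    change F (m % (n + 2)) = v
    rw [← hm, hper]
    exact Nat.mod_modEq _ _
  refine ⟨⟨Equiv.ofBijective f ⟨hinj, hsu⟩, ?_⟩⟩
  intro i j
  rw [SimpleGraph.cycleGraph_adj, fin_sub_eq_one, fin_sub_eq_one]
  change H.Adj (F i.val) (F j.val) ↔ _
  constructor
  · intro h
    obtain ⟨p, q, hpq⟩ := hdeg (F i.val)
    have h1 := hpq _ (hadj i.val)
    have h2 : H.Adj (F i.val) (F (i.val + n + 1)) := by
      have h3 := hadj (i.val + n + 1)
      have h4 : F (i.val + n + 1 + 1) = F i.val := by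
        rw [hper]
        have : i.val + n + 1 + 1 = i.val + (n + 2) := by ring
        rw [this]
        simp [Nat.ModEq]
      rw [h4] at h3
      exact h3.symm
    have h3 := hpq _ h2
    have h4 := hpq _ h
    have hne : F (i.val + 1) ≠ F (i.val + n + 1) := by
      intro h5
      rw [hper] at h5
      have h6 : (1 : ℕ) ≡ n + 1 [MOD n + 2] := by
        apply Nat.ModEq.add_left_cancel' i.val
        rw [← add_assoc]; exact h5
      have h7 := Nat.ModEq.eq_of_lt_of_lt h6 (by omega) (by omega)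
      omega
    have h5 : F j.val = F (i.val + 1) ∨ F j.val = F (i.val + n + 1) := by
      rcases h1 with h1 | h1 <;> rcases h3 with h3 | h3 <;> rcases h4 with h4 | h4
      all_goals first
        | (left; rw [h4, h1]; done)
        | (right; rw [h4, h3]; done)
        | (exfalso; exact hne (h1.trans h3.symm))
    rcases h5 with h5 | h5
    · right
      exact (hper _ _).1 h5
    · left
      rw [hper] at h5
      have h6 : j.val + 1 ≡ i.val + n + 1 + 1 [MOD n + 2] := Nat.ModEq.add_right 1 h5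
      have h7 : i.val + n + 1 + 1 ≡ i.val [MOD n + 2] := by
        have : i.val + n + 1 + 1 = i.val + (n + 2) := by ring
        rw [this]
        simp [Nat.ModEq]
      exact (h6.trans h7).symm
  · rintro (h | h)
    · rw [← hper] at h
      rw [h]
      exact (hadj _).symm
    · rw [← hper] at h
      rw [h]
      exact hadj _

/-- The cyclic sequence of an isomorphic copy of the cycle graph. -/
lemma seq_of_iso {N : ℕ} (hN : 3 ≤ N) (H : G.Subgraph)
    (φ : SimpleGraph.cycleGraph N ≃g H.coe) :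
    ∃ F : ℕ → V, (∀ m m', F m = F m' ↔ m ≡ m' [MOD N]) ∧ (∀ v ∈ H.verts, ∃ m, F m = v) ∧
      (∀ u w, H.Adj u w ↔ ∃ m, (u = F m ∧ w = F (m + 1)) ∨ (u = F (m + 1) ∧ w = F m)) := by
  obtain ⟨n, rfl⟩ : ∃ n, N = n + 2 := ⟨N - 2, by omega⟩
  have hlt : ∀ m, m % (n + 2) < n + 2 := fun m => Nat.mod_lt _ (by omega)
  let F : ℕ → V := fun m => (φ ⟨m % (n + 2), hlt m⟩).1
  have hper : ∀ m m', F m = F m' ↔ m ≡ m' [MOD (n + 2)] := by
    intro m m'
    constructor
    · intro h
      have h1 := φ.injective (Subtype.ext h)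
      exact Fin.mk.inj_iff.1 h1
    · intro h
      change (φ ⟨m % (n + 2), hlt m⟩).1 = (φ ⟨m' % (n + 2), hlt m'⟩).1
      have h1 : m % (n + 2) = m' % (n + 2) := h
      simp only [h1]
  refine ⟨F, hper, ?_, ?_⟩
  · intro v hv
    obtain ⟨i, hi⟩ := φ.surjective ⟨v, hv⟩
    refine ⟨i.val, ?_⟩
    change (φ ⟨i.val % (n + 2), hlt _⟩).1 = v
    have h1 : (⟨i.val % (n + 2), hlt _⟩ : Fin (n + 2)) = i :=
      Fin.ext (Nat.mod_eq_of_lt i.isLt)
    rw [h1, hi]
  · have key : ∀ i j : Fin (n + 2), H.Adj (φ i).1 (φ j).1 ↔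
        (i.val ≡ j.val + 1 [MOD (n + 2)] ∨ j.val ≡ i.val + 1 [MOD (n + 2)]) := by
      intro i j
      rw [← fin_sub_eq_one, ← fin_sub_eq_one, ← SimpleGraph.cycleGraph_adj]
      exact φ.map_rel_iff'
    have hF : ∀ i : Fin (n + 2), F i.val = (φ i).1 := by
      intro i
      change (φ ⟨i.val % (n + 2), hlt _⟩).1 = _
      have h1 : (⟨i.val % (n + 2), hlt _⟩ : Fin (n + 2)) = i :=
        Fin.ext (Nat.mod_eq_of_lt i.isLt)
      rw [h1]
    have hadj : ∀ m, H.Adj (F m) (F (m + 1)) := by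
      intro m
      apply (key _ _).2
      right
      change (m + 1) % (n + 2) ≡ m % (n + 2) + 1 [MOD (n + 2)]
      exact (Nat.mod_modEq _ _).trans (Nat.ModEq.add_right 1 (Nat.mod_modEq _ _)).symm
    intro u w
    constructor
    · intro h
      obtain ⟨i, hi⟩ := φ.surjective ⟨u, h.fst_mem⟩
      obtain ⟨j, hj⟩ := φ.surjective ⟨w, h.snd_mem⟩
      have hu : (φ i).1 = u := by rw [hi]
      have hw : (φ j).1 = w := by rw [hj]
      rw [← hu, ← hw, key] at h
      rcases h with h | h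
      · refine ⟨j.val, Or.inr ⟨?_, ?_⟩⟩
        · rw [← hu, ← hF]; exact (hper _ _).2 h
        · rw [← hw, ← hF]
      · refine ⟨i.val, Or.inl ⟨?_, ?_⟩⟩
        · rw [← hu, ← hF]
        · rw [← hw, ← hF]; exact (hper _ _).2 h
    · rintro ⟨m, ⟨rfl, rfl⟩ | ⟨rfl, rfl⟩⟩
      · exact hadj m
      · exact (hadj m).symm

end Generic

section Pairs

variable {α β V : Type} [DecidableEq α] [DecidableEq β]

/-- Pairs of bijections between finite sets. -/
abbrev PairT (α β : Type) [DecidableEq α] [DecidableEq β] :=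
  Σ A : Finset α, Σ B : Finset β, (A ≃ B) × (A ≃ B)

variable (G : SimpleGraph V) (L : α → V) (R : β → V)

/-- Good pairs. -/
def Good (k : ℕ) (x : PairT α β) : Prop :=
  (x.1.card = k ∧ x.2.1.card = k) ∧
    ((∀ a : x.1, G.Adj (L a) (R (x.2.2.1 a))) ∧ (∀ a : x.1, G.Adj (L a) (R (x.2.2.2 a)))) ∧
    ∀ a a' : x.1, Equiv.Perm.SameCycle (x.2.2.1.trans x.2.2.2.symm) a a'

/-- The subgraph of a pair. -/
def toSub (x : PairT α β) : G.Subgraph where
  verts := {v | (∃ a : x.1, v = L a) ∨ (∃ b : x.2.1, v = R b)}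
  Adj u v := G.Adj u v ∧ ((∃ a : x.1, u = L a ∧ (v = R (x.2.2.1 a) ∨ v = R (x.2.2.2 a))) ∨
    (∃ a : x.1, v = L a ∧ (u = R (x.2.2.1 a) ∨ u = R (x.2.2.2 a))))
  adj_sub := fun h => h.1
  edge_vert := by
    rintro u v ⟨_, ⟨a, h1, h2⟩ | ⟨a, h1, h2 | h2⟩⟩
    · exact Or.inl ⟨a, h1⟩
    · exact Or.inr ⟨_, h2⟩
    · exact Or.inr ⟨_, h2⟩
  symm := ⟨by
    rintro u v ⟨h0, h⟩
    exact ⟨h0.symm, h.symm⟩⟩

/-- The swapped pair. -/
def swapP (x : PairT α β) : PairT α β := ⟨x.1, x.2.1, (x.2.2.2, x.2.2.1)⟩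

lemma toSub_swap (x : PairT α β) : toSub G L R (swapP x) = toSub G L R x := by
  apply SimpleGraph.Subgraph.ext
  · rfl
  · funext u v
    apply propext
    change (G.Adj u v ∧ ((∃ a : x.1, u = L a ∧ (v = R (x.2.2.2 a) ∨ v = R (x.2.2.1 a))) ∨
      (∃ a : x.1, v = L a ∧ (u = R (x.2.2.2 a) ∨ u = R (x.2.2.1 a))))) ↔
      (G.Adj u v ∧ ((∃ a : x.1, u = L a ∧ (v = R (x.2.2.1 a) ∨ v = R (x.2.2.2 a))) ∨
      (∃ a : x.1, v = L a ∧ (u = R (x.2.2.1 a) ∨ u = R (x.2.2.2 a)))))
    constructor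
    · rintro ⟨h0, ⟨a, h1, h2⟩ | ⟨a, h1, h2⟩⟩
      · exact ⟨h0, Or.inl ⟨a, h1, h2.symm⟩⟩
      · exact ⟨h0, Or.inr ⟨a, h1, h2.symm⟩⟩
    · rintro ⟨h0, ⟨a, h1, h2⟩ | ⟨a, h1, h2⟩⟩
      · exact ⟨h0, Or.inl ⟨a, h1, h2.symm⟩⟩
      · exact ⟨h0, Or.inr ⟨a, h1, h2.symm⟩⟩

lemma good_swap {k : ℕ} {x : PairT α β} (hx : Good G L R k x) : Good G L R k (swapP x) := by
  obtain ⟨h1, ⟨h2, h3⟩, h4⟩ := hx
  refine ⟨h1, ⟨h3, h2⟩, ?_⟩
  intro a a'
  have h5 := h4 a a'
  have h6 : (x.2.2.2.trans x.2.2.1.symm : Equiv.Perm x.1) =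
      (x.2.2.1.trans x.2.2.2.symm : Equiv.Perm x.1)⁻¹ := by
    ext y; simp [Equiv.Perm.inv_def]
  change Equiv.Perm.SameCycle (x.2.2.2.trans x.2.2.1.symm) a a'
  rw [h6, Equiv.Perm.sameCycle_inv]
  exact h5

variable {G L R}

lemma pi_ne {A : Finset α} {B : Finset β} {σ τ : A ≃ B} (hk : 2 ≤ A.card)
    (hc : ∀ a a' : A, Equiv.Perm.SameCycle (σ.trans τ.symm) a a') (a : A) : σ a ≠ τ a := by
  intro h
  have h1 : (σ.trans τ.symm : Equiv.Perm A) a = a := by
    simp [h]
  have h2 : (1 : ℕ) < Fintype.card A := by rw [Fintype.card_coe]; omega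
  obtain ⟨a', ha'⟩ := Fintype.exists_ne_of_one_lt_card h2 a
  obtain ⟨n, hn⟩ := hc a a'
  exact ha' (hn.symm.trans (Equiv.Perm.zpow_apply_eq_self_of_apply_eq_self h1 n))

/-- Closure under the permutation gives everything. -/
lemma all_of_closed {A : Finset α} {π : Equiv.Perm A}
    (hc : ∀ a a' : A, Equiv.Perm.SameCycle π a a') {S : A → Prop} (hS : ∀ a, S a → S (π a))
    {a : A} (ha : S a) (b : A) : S b := by
  have h1 : π.IsCycleOn ((univ : Finset A) : Set A) := by
    refine ⟨?_, fun x _ y _ => hc x y⟩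
    simp only [Finset.coe_univ, Set.bijOn_univ]
    exact π.bijective
  obtain ⟨n, -, hn⟩ := h1.exists_pow_eq (Finset.mem_univ a) (Finset.mem_univ b)
  rw [← hn]
  have : ∀ m : ℕ, S ((π ^ m) a) := by
    intro m
    induction m with
    | zero => simpa using ha
    | succ m ih =>
      rw [pow_succ', Equiv.Perm.mul_apply]
      exact hS _ ih
  exact this n

lemma toSub_adj (hL : Function.Injective L) (hR : Function.Injective R)
    (hLR : ∀ a b, L a ≠ R b) {k : ℕ} {x : PairT α β} (hx : Good G L R k x) (a : α) (b : β) :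
    (toSub G L R x).Adj (L a) (R b) ↔
      ∃ ha : a ∈ x.1, b = x.2.2.1 ⟨a, ha⟩ ∨ b = x.2.2.2 ⟨a, ha⟩ := by
  constructor
  · rintro ⟨_, ⟨a', h1, h2⟩ | ⟨a', h1, _⟩⟩
    · have h3 := hL h1
      subst h3
      refine ⟨a'.2, ?_⟩
      rcases h2 with h2 | h2
      · left; exact hR h2
      · right; exact hR h2
    · exact absurd h1.symm (hLR _ _)
  · rintro ⟨ha, h | h⟩
    · subst h
      exact ⟨hx.2.1.1 ⟨a, ha⟩, Or.inl ⟨⟨a, ha⟩, rfl, Or.inl rfl⟩⟩
    · subst h
      exact ⟨hx.2.1.2 ⟨a, ha⟩, Or.inl ⟨⟨a, ha⟩, rfl, Or.inr rfl⟩⟩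

/-- The fibres of `toSub`. -/
lemma fibre (hL : Function.Injective L) (hR : Function.Injective R)
    (hLR : ∀ a b, L a ≠ R b) {k : ℕ} (hk : 2 ≤ k) {x y : PairT α β} (hx : Good G L R k x)
    (hy : Good G L R k y) (hxy : toSub G L R y = toSub G L R x) : y = x ∨ y = swapP x := by
  have hx' := toSub_adj hL hR hLR hx
  have hy' := toSub_adj hL hR hLR hy
  rw [hxy] at hy'
  obtain ⟨A, B, σ, τ⟩ := x
  obtain ⟨A', B', σ', τ'⟩ := y
  have hv : ∀ v, ((∃ a : A', v = L a) ∨ (∃ b : B', v = R b)) ↔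
      ((∃ a : A, v = L a) ∨ (∃ b : B, v = R b)) := by
    intro v
    have := congrArg (fun H => v ∈ H.verts) hxy
    simpa [toSub] using this
  have hA : A' = A := by
    ext a
    have h := hv (L a)
    constructor
    · intro ha
      rcases h.1 (Or.inl ⟨⟨a, ha⟩, rfl⟩) with ⟨a', h1⟩ | ⟨b, h1⟩
      · rw [hL h1]; exact a'.2
      · exact absurd h1 (hLR _ _)
    · intro ha
      rcases h.2 (Or.inl ⟨⟨a, ha⟩, rfl⟩) with ⟨a', h1⟩ | ⟨b, h1⟩
      · rw [hL h1]; exact a'.2
      · exact absurd h1 (hLR _ _)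
  have hB : B' = B := by
    ext b
    have h := hv (R b)
    constructor
    · intro hb
      rcases h.1 (Or.inr ⟨⟨b, hb⟩, rfl⟩) with ⟨a', h1⟩ | ⟨b', h1⟩
      · exact absurd h1.symm (hLR _ _)
      · rw [hR h1]; exact b'.2
    · intro hb
      rcases h.2 (Or.inr ⟨⟨b, hb⟩, rfl⟩) with ⟨a', h1⟩ | ⟨b', h1⟩
      · exact absurd h1.symm (hLR _ _)
      · rw [hR h1]; exact b'.2
  subst hA
  subst hB
  have hne := pi_ne (σ := σ) (τ := τ) (by rw [hx.1.1]; exact hk) hx.2.2
  have hne' := pi_ne (σ := σ') (τ := τ') (by rw [hy.1.1]; exact hk) hy.2.2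
  have hboth : ∀ (a : A') (b : B'), (b = σ a ∨ b = τ a) ↔ (b = σ' a ∨ b = τ' a) := by
    intro a b
    have h1 := hx' a.1 b.1
    have h2 := hy' a.1 b.1
    rw [h1] at h2
    have e1 : ∀ c : B', (b.1 = c.1) ↔ b = c := fun c => Subtype.ext_iff.symm
    constructor
    · intro h
      have h3 := h2.1 ⟨a.2, by
        rcases h with h | h
        · left; rw [h]
        · right; rw [h]⟩
      obtain ⟨_, h4 | h4⟩ := h3
      · left; exact Subtype.ext h4
      · right; exact Subtype.ext h4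
    · intro h
      have h3 := h2.2 ⟨a.2, by
        rcases h with h | h
        · left; rw [h]
        · right; rw [h]⟩
      obtain ⟨_, h4 | h4⟩ := h3
      · left; exact Subtype.ext h4
      · right; exact Subtype.ext h4
  by_cases hex : ∃ a, σ' a = σ a
  · left
    obtain ⟨a0, ha0⟩ := hex
    have hall : ∀ b, σ' b = σ b := by
      apply all_of_closed (π := σ.trans τ.symm) hx.2.2 (S := fun a => σ' a = σ a) _ ha0
      intro a ha
      set c := (σ.trans τ.symm) a with hc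
      have hτ : τ c = σ a := by rw [hc]; simp
      rcases (hboth c (σ' c)).2 (Or.inl rfl) with h | h
      · exact h
      · exfalso
        rw [hτ, ← ha] at h
        have h5 := σ'.injective h
        rw [h5] at hτ
        exact hne a hτ.symm
    have hallτ : ∀ b, τ' b = τ b := by
      intro b
      rcases (hboth b (τ' b)).2 (Or.inr rfl) with h | h
      · exact absurd (h.trans (hall b).symm) (hne' b).symm
      · exact h
    have e1 : σ' = σ := Equiv.ext hall
    have e2 : τ' = τ := Equiv.ext hallτ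
    rw [e1, e2]
  · right
    have hall : ∀ b, σ' b = τ b := by
      intro b
      rcases (hboth b (σ' b)).2 (Or.inl rfl) with h | h
      · exact absurd ⟨b, h⟩ hex
      · exact h
    have hallτ : ∀ b, τ' b = σ b := by
      intro b
      rcases (hboth b (τ' b)).2 (Or.inr rfl) with h | h
      · exact h
      · exact absurd (h.trans (hall b).symm) (hne' b).symm
    have e1 : σ' = τ := Equiv.ext hall
    have e2 : τ' = σ := Equiv.ext hallτ
    rw [e1, e2]
    rfl

lemma swap_ne {k : ℕ} (hk : 2 ≤ k) {x : PairT α β} (hx : Good G L R k x) : swapP x ≠ x := by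
  obtain ⟨A, B, σ, τ⟩ := x
  intro h
  have hne := pi_ne (σ := σ) (τ := τ) (by rw [hx.1.1]; exact hk) hx.2.2
  simp only [swapP, Sigma.mk.injEq, heq_eq_eq, true_and, Prod.mk.injEq] at h
  have hpos : 0 < A.card := by have := hx.1.1; simp only at this; omega
  obtain ⟨a, ha⟩ := Finset.card_pos.1 hpos
  exact hne ⟨a, ha⟩ (by rw [h.1])

/-- The subgraph of a good pair is a cycle. -/
lemma toSub_iso (hL : Function.Injective L) (hR : Function.Injective R)
    (hLR : ∀ a b, L a ≠ R b) {k : ℕ} (hk : 2 ≤ k) {x : PairT α β} (hx : Good G L R k x) :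
    Nonempty (SimpleGraph.cycleGraph (2 * k) ≃g (toSub G L R x).coe) := by
  obtain ⟨A, B, σ, τ⟩ := x
  obtain ⟨⟨hA, hB⟩, ⟨hσ, hτ⟩, hc⟩ := hx
  simp only at hA hB hσ hτ hc
  have hpos : 0 < A.card := by omega
  obtain ⟨a0, ha0⟩ := Finset.card_pos.1 hpos
  set x0 : A := ⟨a0, ha0⟩ with hx0
  set π : Equiv.Perm A := σ.trans τ.symm with hπ
  have hcyc : π.IsCycleOn ((univ : Finset A) : Set A) := by
    refine ⟨?_, fun x _ y _ => hc x y⟩
    simp only [Finset.coe_univ, Set.bijOn_univ]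
    exact π.bijective
  have hcard : (univ : Finset A).card = k := by simpa using hA
  have hpow : ∀ m n : ℕ, (π ^ m) x0 = (π ^ n) x0 ↔ m ≡ n [MOD k] := by
    intro m n
    rw [hcyc.pow_apply_eq_pow_apply (Finset.mem_univ _), hcard]
  have hex : ∀ a : A, ∃ n < k, (π ^ n) x0 = a := by
    intro a
    have := hcyc.exists_pow_eq (Finset.mem_univ x0) (Finset.mem_univ a)
    rwa [hcard] at this
  have hτπ : ∀ a : A, τ (π a) = σ a := by intro a; rw [hπ]; simp
  let F : ℕ → V := fun m => if m % 2 = 0 then L ((π ^ (m / 2)) x0) else R (σ ((π ^ (m / 2)) x0))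
  have hF0 : ∀ n, F (2 * n) = L ((π ^ n) x0) := by
    intro n
    have h1 : (2 * n) % 2 = 0 := by omega
    have h2 : (2 * n) / 2 = n := by omega
    simp only [F, h1, h2, if_true]
  have hF1 : ∀ n, F (2 * n + 1) = R (σ ((π ^ n) x0)) := by
    intro n
    have h1 : (2 * n + 1) % 2 ≠ 0 := by omega
    have h2 : (2 * n + 1) / 2 = n := by omega
    simp only [F, h1, h2, if_false]
  have hmod : ∀ m n : ℕ, 2 * m ≡ 2 * n [MOD (2 * k)] ↔ m ≡ n [MOD k] := by
    intro m n
    constructor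
    · intro h; exact Nat.ModEq.mul_left_cancel' (by norm_num) h
    · intro h; exact Nat.ModEq.mul_left' 2 h
  have hpar : ∀ m n : ℕ, ¬ (2 * m ≡ 2 * n + 1 [MOD (2 * k)]) := by
    intro m n h
    have h1 : 2 * m ≡ 2 * n + 1 [MOD 2] := h.of_mul_right k
    simp [Nat.ModEq, Nat.mul_add_mod] at h1
  apply iso_of_seq (N := 2 * k) (by omega) (toSub G L R ⟨A, B, σ, τ⟩) F
  · intro m m'
    rcases Nat.even_or_odd' m with ⟨n, rfl | rfl⟩ <;> rcases Nat.even_or_odd' m' with ⟨n', rfl | rfl⟩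
    · rw [hF0, hF0, hmod, ← hpow]
      constructor
      · intro h; exact Subtype.ext (hL h)
      · intro h; rw [h]
    · rw [hF0, hF1]
      exact ⟨fun h => absurd h (hLR _ _), fun h => absurd h (hpar _ _)⟩
    · rw [hF0, hF1]
      exact ⟨fun h => absurd h.symm (hLR _ _), fun h => absurd h.symm (hpar _ _)⟩
    · rw [hF1, hF1]
      have h2 : 2 * n + 1 ≡ 2 * n' + 1 [MOD (2 * k)] ↔ n ≡ n' [MOD k] := by
        rw [← hmod]
        exact ⟨fun h => Nat.ModEq.add_right_cancel' 1 h, fun h => Nat.ModEq.add_right 1 h⟩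
      rw [h2, ← hpow]
      constructor
      · intro h; exact σ.injective (Subtype.ext (hR h))
      · intro h; rw [h]
  · rintro v (⟨a, rfl⟩ | ⟨b, rfl⟩)
    · obtain ⟨n, _, hn⟩ := hex a
      exact ⟨2 * n, by rw [hF0, hn]⟩
    · obtain ⟨n, _, hn⟩ := hex (σ.symm b)
      exact ⟨2 * n + 1, by rw [hF1, hn]; simp⟩
  · intro m
    rcases Nat.even_or_odd' m with ⟨n, rfl | rfl⟩
    · rw [hF0, hF1]
      exact ⟨hσ _, Or.inl ⟨_, rfl, Or.inl rfl⟩⟩
    · have h1 : 2 * n + 1 + 1 = 2 * (n + 1) := by ring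
      rw [h1, hF0, hF1, pow_succ', Equiv.Perm.mul_apply]
      have h2 := hτ (π ((π ^ n) x0))
      rw [hτπ] at h2
      exact ⟨h2.symm, Or.inr ⟨_, rfl, Or.inr (by rw [hτπ])⟩⟩
  · intro u
    by_cases hu : ∃ a : A, u = L a
    · obtain ⟨a, rfl⟩ := hu
      refine ⟨R (σ a), R (τ a), ?_⟩
      rintro w ⟨_, ⟨a', h1, h2⟩ | ⟨a', _, h2⟩⟩
      · have h3 : a = a' := Subtype.ext (hL h1)
        subst h3
        exact h2
      · rcases h2 with h2 | h2 <;> exact absurd h2 (hLR _ _)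
    · by_cases hu2 : ∃ b : B, u = R b
      · obtain ⟨b, rfl⟩ := hu2
        refine ⟨L (σ.symm b), L (τ.symm b), ?_⟩
        rintro w ⟨_, ⟨a', h1, h2⟩ | ⟨a', h1, h2⟩⟩
        · exact absurd h1.symm (hLR _ _)
        · rcases h2 with h2 | h2
          · left
            have h3 : b = σ a' := Subtype.ext (hR h2)
            rw [h1, h3]; simp
          · right
            have h3 : b = τ a' := Subtype.ext (hR h2)
            rw [h1, h3]; simp
      · refine ⟨u, u, ?_⟩
        rintro w ⟨_, ⟨a', h1, h2⟩ | ⟨a', h1, h2⟩⟩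
        · exact absurd ⟨a', h1⟩ hu
        · rcases h2 with h2 | h2 <;> exact absurd ⟨_, h2⟩ hu2

/-- Two cyclic enumerations with the same period give a bijection. -/
lemma exists_equiv {A B : Type} {k : ℕ} (P : ℕ → A) (Q : ℕ → B)
    (hP : ∀ m m', P m = P m' ↔ m ≡ m' [MOD k]) (hPs : Function.Surjective P)
    (hQ : ∀ m m', Q m = Q m' ↔ m ≡ m' [MOD k]) (hQs : Function.Surjective Q) :
    ∃ σ : A ≃ B, ∀ m, σ (P m) = Q m := by
  let f : A → B := fun a => Q (Function.surjInv hPs a)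
  have hf : ∀ m, f (P m) = Q m := by
    intro m
    change Q (Function.surjInv hPs (P m)) = Q m
    rw [hQ, ← hP]
    exact Function.surjInv_eq hPs (P m)
  have hinj : Function.Injective f := by
    intro a a' h
    obtain ⟨m, rfl⟩ := hPs a
    obtain ⟨m', rfl⟩ := hPs a'
    rw [hf, hf, hQ, ← hP] at h
    exact h
  have hsu : Function.Surjective f := by
    intro b
    obtain ⟨m, rfl⟩ := hQs b
    exact ⟨P m, hf m⟩
  exact ⟨Equiv.ofBijective f ⟨hinj, hsu⟩, hf⟩

/-- The cyclic sequence of a cycle of even length in a bipartite graph, starting on the left. -/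
lemma bip_seq (hL : Function.Injective L) (hR : Function.Injective R)
    (hcov : ∀ v, (∃ a, v = L a) ∨ (∃ b, v = R b))
    (hLL : ∀ a a', ¬ G.Adj (L a) (L a')) (hRR : ∀ b b', ¬ G.Adj (R b) (R b'))
    {k : ℕ} (hk : 2 ≤ k) (H : G.Subgraph)
    (hH : Nonempty (SimpleGraph.cycleGraph (2 * k) ≃g H.coe)) :
    ∃ (p : ℕ → α) (q : ℕ → β), (∀ m m', p m = p m' ↔ m ≡ m' [MOD k]) ∧
      (∀ m m', q m = q m' ↔ m ≡ m' [MOD k]) ∧
      (∀ v ∈ H.verts, ∃ m, v = L (p m) ∨ v = R (q m)) ∧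
      (∀ m, H.Adj (L (p m)) (R (q m))) ∧ (∀ m, H.Adj (R (q m)) (L (p (m + 1)))) ∧
      (∀ u w, H.Adj u w → ∃ m, (u = L (p m) ∧ w = R (q m)) ∨ (u = R (q m) ∧ w = L (p m)) ∨
        (u = R (q m) ∧ w = L (p (m + 1))) ∨ (u = L (p (m + 1)) ∧ w = R (q m))) := by
  obtain ⟨φ⟩ := hH
  obtain ⟨F0, hper0, hsurj0, hadj0⟩ := seq_of_iso (by omega : 3 ≤ 2 * k) H φ
  -- shift so that the sequence starts on the left
  have hshift : ∃ F : ℕ → V, (∀ m m', F m = F m' ↔ m ≡ m' [MOD (2 * k)]) ∧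
      (∀ v ∈ H.verts, ∃ m, F m = v) ∧
      (∀ u w, H.Adj u w ↔ ∃ m, (u = F m ∧ w = F (m + 1)) ∨ (u = F (m + 1) ∧ w = F m)) ∧
      ∃ a, F 0 = L a := by
    rcases hcov (F0 0) with ⟨a, ha⟩ | ⟨b, hb⟩
    · exact ⟨F0, hper0, hsurj0, hadj0, a, ha⟩
    · have hback : ∀ m, F0 (m + 2 * k) = F0 m := by
        intro m
        rw [hper0]
        simp [Nat.ModEq]
      refine ⟨fun m => F0 (m + 1), ?_, ?_, ?_, ?_⟩
      · intro m m'
        rw [hper0]
        exact ⟨fun h => Nat.ModEq.add_right_cancel' 1 h, fun h => Nat.ModEq.add_right 1 h⟩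
      · intro v hv
        obtain ⟨m, hm⟩ := hsurj0 v hv
        refine ⟨m + 2 * k - 1, ?_⟩
        have h1 : m + 2 * k - 1 + 1 = m + 2 * k := by omega
        simp only [h1, hback, hm]
      · intro u w
        rw [hadj0]
        constructor
        · rintro ⟨m, hm⟩
          refine ⟨m + 2 * k - 1, ?_⟩
          have h1 : m + 2 * k - 1 + 1 = m + 2 * k := by omega
          have h2 : m + 2 * k + 1 = (m + 1) + 2 * k := by omega
          simp only [h1, h2, hback]
          exact hm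
        · rintro ⟨m, hm⟩
          exact ⟨m + 1, hm⟩
      · rcases hcov (F0 (0 + 1)) with ⟨a, ha⟩ | ⟨b', hb'⟩
        · exact ⟨a, ha⟩
        · exfalso
          have h1 : H.Adj (F0 0) (F0 (0 + 1)) := (hadj0 _ _).2 ⟨0, Or.inl ⟨rfl, rfl⟩⟩
          have h2 := H.adj_sub h1
          rw [hb, hb'] at h2
          exact hRR _ _ h2
  obtain ⟨F, hper, hsurj, hadj, a0, ha0⟩ := hshift
  have hstep : ∀ m, H.Adj (F m) (F (m + 1)) := fun m => (hadj _ _).2 ⟨m, Or.inl ⟨rfl, rfl⟩⟩
  have hLR1 : ∀ m, (∃ a, F m = L a) → ∃ b, F (m + 1) = R b := by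
    rintro m ⟨a, ha⟩
    rcases hcov (F (m + 1)) with ⟨a', ha'⟩ | ⟨b, hb⟩
    · have h2 := H.adj_sub (hstep m)
      rw [ha, ha'] at h2
      exact absurd h2 (hLL _ _)
    · exact ⟨b, hb⟩
  have hRL1 : ∀ m, (∃ b, F m = R b) → ∃ a, F (m + 1) = L a := by
    rintro m ⟨b, hb⟩
    rcases hcov (F (m + 1)) with ⟨a, ha⟩ | ⟨b', hb'⟩
    · exact ⟨a, ha⟩
    · have h2 := H.adj_sub (hstep m)
      rw [hb, hb'] at h2
      exact absurd h2 (hRR _ _)
  have hev : ∀ n, ∃ a, F (2 * n) = L a := by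
    intro n
    induction n with
    | zero => exact ⟨a0, ha0⟩
    | succ n ih =>
      have h1 : 2 * (n + 1) = 2 * n + 1 + 1 := by ring
      rw [h1]
      exact hRL1 _ (hLR1 _ ih)
  have hod : ∀ n, ∃ b, F (2 * n + 1) = R b := fun n => hLR1 _ (hev n)
  choose p hp using hev
  choose q hq using hod
  have hmod : ∀ m n : ℕ, 2 * m ≡ 2 * n [MOD (2 * k)] ↔ m ≡ n [MOD k] := by
    intro m n
    constructor
    · intro h; exact Nat.ModEq.mul_left_cancel' (by norm_num) h
    · intro h; exact Nat.ModEq.mul_left' 2 h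
  have h22 : ∀ n, F (2 * n + 1 + 1) = L (p (n + 1)) := by
    intro n
    have h1 : 2 * n + 1 + 1 = 2 * (n + 1) := by ring
    rw [h1, hp]
  refine ⟨p, q, ?_, ?_, ?_, ?_, ?_, ?_⟩
  · intro m m'
    rw [← hmod, ← hper, hp, hp]
    exact ⟨fun h => by rw [h], fun h => hL h⟩
  · intro m m'
    have h2 : 2 * m + 1 ≡ 2 * m' + 1 [MOD (2 * k)] ↔ m ≡ m' [MOD k] := by
      rw [← hmod]
      exact ⟨fun h => Nat.ModEq.add_right_cancel' 1 h, fun h => Nat.ModEq.add_right 1 h⟩
    rw [← h2, ← hper, hq, hq]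
    exact ⟨fun h => by rw [h], fun h => hR h⟩
  · intro v hv
    obtain ⟨m, hm⟩ := hsurj v hv
    rcases Nat.even_or_odd' m with ⟨n, rfl | rfl⟩
    · exact ⟨n, Or.inl (by rw [← hm, hp])⟩
    · exact ⟨n, Or.inr (by rw [← hm, hq])⟩
  · intro m
    have h1 := hstep (2 * m)
    rw [hp, hq] at h1
    exact h1
  · intro m
    have h1 := hstep (2 * m + 1)
    rw [h22, hq] at h1
    exact h1
  · intro u w huw
    obtain ⟨m, hm⟩ := (hadj _ _).1 huw
    rcases Nat.even_or_odd' m with ⟨n, rfl | rfl⟩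
    · refine ⟨n, ?_⟩
      rw [hp, hq] at hm
      rcases hm with hm | hm
      · exact Or.inl hm
      · exact Or.inr (Or.inl hm)
    · refine ⟨n, ?_⟩
      rw [h22, hq] at hm
      rcases hm with hm | hm
      · exact Or.inr (Or.inr (Or.inl hm))
      · exact Or.inr (Or.inr (Or.inr hm))

/-- Every cycle of length `2k` comes from a good pair. -/
lemma toSub_surj (hL : Function.Injective L) (hR : Function.Injective R)
    (hcov : ∀ v, (∃ a, v = L a) ∨ (∃ b, v = R b))
    (hLL : ∀ a a', ¬ G.Adj (L a) (L a')) (hRR : ∀ b b', ¬ G.Adj (R b) (R b'))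
    {k : ℕ} (hk : 2 ≤ k) (H : G.Subgraph)
    (hH : Nonempty (SimpleGraph.cycleGraph (2 * k) ≃g H.coe)) :
    ∃ x : PairT α β, Good G L R k x ∧ toSub G L R x = H := by
  obtain ⟨p, q, hp, hq, hv, h1, h2, hadj⟩ := bip_seq hL hR hcov hLL hRR hk H hH
  have hkpos : 0 < k := by omega
  have hpm : ∀ m, p (m % k) = p m := fun m => (hp _ _).2 (Nat.mod_modEq _ _)
  have hqm : ∀ m, q (m % k) = q m := fun m => (hq _ _).2 (Nat.mod_modEq _ _)
  set A : Finset α := (range k).image p with hA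
  set B : Finset β := (range k).image q with hB
  have hpA : ∀ m, p m ∈ A := fun m =>
    Finset.mem_image.2 ⟨m % k, Finset.mem_range.2 (Nat.mod_lt _ hkpos), hpm m⟩
  have hqB : ∀ m, q m ∈ B := fun m =>
    Finset.mem_image.2 ⟨m % k, Finset.mem_range.2 (Nat.mod_lt _ hkpos), hqm m⟩
  let P : ℕ → A := fun m => ⟨p m, hpA m⟩
  let Q : ℕ → B := fun m => ⟨q m, hqB m⟩
  have hP : ∀ m m', P m = P m' ↔ m ≡ m' [MOD k] := by
    intro m m'
    rw [← hp]
    exact Subtype.ext_iff
  have hQ : ∀ m m', Q m = Q m' ↔ m ≡ m' [MOD k] := by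
    intro m m'
    rw [← hq]
    exact Subtype.ext_iff
  have hPs : Function.Surjective P := by
    rintro ⟨a, ha⟩
    obtain ⟨m, -, hm⟩ := Finset.mem_image.1 ha
    exact ⟨m, Subtype.ext hm⟩
  have hQs : Function.Surjective Q := by
    rintro ⟨b, hb⟩
    obtain ⟨m, -, hm⟩ := Finset.mem_image.1 hb
    exact ⟨m, Subtype.ext hm⟩
  have hP' : ∀ m m', P (m + 1) = P (m' + 1) ↔ m ≡ m' [MOD k] := by
    intro m m'
    rw [hP]
    exact ⟨fun h => Nat.ModEq.add_right_cancel' 1 h, fun h => Nat.ModEq.add_right 1 h⟩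
  have hPs' : Function.Surjective (fun m => P (m + 1)) := by
    intro a
    obtain ⟨m, rfl⟩ := hPs a
    refine ⟨m + k - 1, ?_⟩
    change P (m + k - 1 + 1) = P m
    rw [hP]
    have h3 : m + k - 1 + 1 = m + k := by omega
    rw [h3]
    simp [Nat.ModEq]
  obtain ⟨σ, hσ⟩ := exists_equiv P Q hP hPs hQ hQs
  obtain ⟨τ, hτ⟩ := exists_equiv (fun m => P (m + 1)) Q hP' hPs' hQ hQs
  have hσH : ∀ a : A, H.Adj (L a) (R (σ a)) := by
    intro a
    obtain ⟨m, rfl⟩ := hPs a
    rw [hσ]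
    exact h1 m
  have hτH : ∀ a : A, H.Adj (L a) (R (τ a)) := by
    intro a
    obtain ⟨m, hm⟩ := hPs' a
    subst hm
    rw [hτ]
    exact (h2 m).symm
  refine ⟨⟨A, B, σ, τ⟩, ⟨⟨?_, ?_⟩, ⟨fun a => H.adj_sub (hσH a), fun a => H.adj_sub (hτH a)⟩, ?_⟩,
    ?_⟩
  · change A.card = k
    rw [hA, Finset.card_image_of_injOn, Finset.card_range]
    intro m hm m' hm' h
    rw [Finset.coe_range, Set.mem_Iio] at hm hm'
    exact Nat.ModEq.eq_of_lt_of_lt ((hp _ _).1 h) hm hm'
  · change B.card = k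
    rw [hB, Finset.card_image_of_injOn, Finset.card_range]
    intro m hm m' hm' h
    rw [Finset.coe_range, Set.mem_Iio] at hm hm'
    exact Nat.ModEq.eq_of_lt_of_lt ((hq _ _).1 h) hm hm'
  · change ∀ a a' : A, Equiv.Perm.SameCycle (σ.trans τ.symm) a a'
    have hstep : ∀ m, (σ.trans τ.symm : Equiv.Perm A) (P m) = P (m + 1) := by
      intro m
      rw [Equiv.trans_apply, hσ, Equiv.symm_apply_eq]
      exact (hτ m).symm
    have hpow : ∀ m : ℕ, ((σ.trans τ.symm : Equiv.Perm A) ^ m) (P 0) = P m := by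
      intro m
      induction m with
      | zero => simp
      | succ m ih => rw [pow_succ', Equiv.Perm.mul_apply, ih, hstep]
    have hsame : ∀ a : A, Equiv.Perm.SameCycle (σ.trans τ.symm : Equiv.Perm A) (P 0) a := by
      intro a
      obtain ⟨m, rfl⟩ := hPs a
      exact ⟨m, by rw [zpow_natCast, hpow]⟩
    intro a a'
    exact (hsame a).symm.trans (hsame a')
  · apply SimpleGraph.Subgraph.ext
    · ext v
      change ((∃ a : A, v = L a) ∨ (∃ b : B, v = R b)) ↔ v ∈ H.verts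
      constructor
      · rintro (⟨a, rfl⟩ | ⟨b, rfl⟩)
        · exact (hσH a).fst_mem
        · have h3 := hσH (σ.symm b)
          rw [Equiv.apply_symm_apply] at h3
          exact h3.snd_mem
      · intro h3
        obtain ⟨m, h4 | h4⟩ := hv v h3
        · exact Or.inl ⟨P m, h4⟩
        · exact Or.inr ⟨Q m, h4⟩
    · funext u w
      apply propext
      constructor
      · rintro ⟨_, ⟨a, rfl, rfl | rfl⟩ | ⟨a, rfl, rfl | rfl⟩⟩
        · exact hσH a
        · exact hτH a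
        · exact (hσH a).symm
        · exact (hτH a).symm
      · intro h3
        refine ⟨H.adj_sub h3, ?_⟩
        have e1 : ∀ m, R (q m) = R (σ (P m)) := by intro m; rw [hσ]
        have e2 : ∀ m, R (q m) = R (τ (P (m + 1))) := fun m =>
          congrArg (fun b : B => R b) (hτ m).symm
        obtain ⟨m, ⟨h4, h5⟩ | ⟨h4, h5⟩ | ⟨h4, h5⟩ | ⟨h4, h5⟩⟩ := hadj u w h3
        · exact Or.inl ⟨P m, h4, Or.inl (by rw [h5]; exact e1 m)⟩
        · exact Or.inr ⟨P m, h5, Or.inl (by rw [h4]; exact e1 m)⟩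
        · exact Or.inr ⟨P (m + 1), h5, Or.inr (by rw [h4]; exact e2 m)⟩
        · exact Or.inl ⟨P (m + 1), h4, Or.inr (by rw [h5]; exact e2 m)⟩

section Count

variable [Fintype α] [Fintype β]

open Classical in
/-- The sum over the pairs counts the good pairs. -/
lemma pairSum_eq (k : ℕ) :
    pairSum (fun i l => if G.Adj (L i) (R l) then (1 : ℤ) else 0) k =
      (((univ : Finset (PairT α β)).filter (Good G L R k)).card : ℤ) := by
  rw [Finset.card_filter]
  push_cast
  rw [Fintype.sum_sigma, pairSum, powersetCard_eq_filter, powerset_univ, Finset.sum_filter]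
  apply Finset.sum_congr rfl
  intro A _
  rw [Fintype.sum_sigma, powersetCard_eq_filter, powerset_univ, Finset.sum_filter]
  by_cases hA : A.card = k
  · rw [if_pos hA]
    apply Finset.sum_congr rfl
    intro B _
    rw [Fintype.sum_prod_type]
    by_cases hB : B.card = k
    · rw [if_pos hB]
      apply Finset.sum_congr rfl
      intro σ _
      apply Finset.sum_congr rfl
      intro τ _
      rw [Finset.prod_boole, Finset.prod_boole]
      by_cases hc : ∀ a a' : A, Equiv.Perm.SameCycle (σ.trans τ.symm) a a'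
      · rw [if_pos hc]
        by_cases hs : ∀ a ∈ (univ : Finset A), G.Adj (L a) (R (σ a))
        · by_cases ht : ∀ a ∈ (univ : Finset A), G.Adj (L a) (R (τ a))
          · rw [if_pos hs, if_pos ht, if_pos]
            · norm_num
            · exact ⟨⟨hA, hB⟩, ⟨fun a => hs a (Finset.mem_univ _),
                fun a => ht a (Finset.mem_univ _)⟩, hc⟩
          · rw [if_neg ht, mul_zero, if_neg]
            exact fun h => ht fun a _ => h.2.1.2 a
        · rw [if_neg hs, zero_mul, if_neg]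
          exact fun h => hs fun a _ => h.2.1.1 a
      · rw [if_neg hc, if_neg]
        exact fun h => hc h.2.2
    · rw [if_neg hB]
      symm
      apply Finset.sum_eq_zero
      intro σ _
      apply Finset.sum_eq_zero
      intro τ _
      rw [if_neg]
      exact fun h => hB h.1.2
  · rw [if_neg hA]
    symm
    apply Finset.sum_eq_zero
    intro B _
    apply Finset.sum_eq_zero
    intro στ _
    rw [if_neg]
    exact fun h => hA h.1.1

open Classical in
/-- Every cycle comes from two good pairs. -/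
lemma card_good [Fintype V] (hL : Function.Injective L) (hR : Function.Injective R)
    (hLR : ∀ a b, L a ≠ R b) (hcov : ∀ v, (∃ a, v = L a) ∨ (∃ b, v = R b))
    (hLL : ∀ a a', ¬ G.Adj (L a) (L a')) (hRR : ∀ b b', ¬ G.Adj (R b) (R b'))
    {k : ℕ} (hk : 2 ≤ k) :
    ((univ : Finset (PairT α β)).filter (Good G L R k)).card =
      2 * G.copyCount (SimpleGraph.cycleGraph (2 * k)) := by
  unfold SimpleGraph.copyCount
  rw [Finset.card_eq_sum_card_fiberwise (f := toSub G L R)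
    (t := univ.filter fun H : G.Subgraph =>
      Nonempty (SimpleGraph.cycleGraph (2 * k) ≃g H.coe))]
  · rw [Finset.sum_const_nat (m := 2), mul_comm]
    intro H hH
    obtain ⟨x, hx, rfl⟩ := toSub_surj hL hR hcov hLL hRR hk H (Finset.mem_filter.1 hH).2
    have h3 : (univ.filter (Good G L R k)).filter (fun y => toSub G L R y = toSub G L R x) =
        {x, swapP x} := by
      ext y
      simp only [Finset.mem_filter, Finset.mem_univ, true_and, Finset.mem_insert,
        Finset.mem_singleton]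
      constructor
      · rintro ⟨h4, h5⟩
        exact fibre hL hR hLR hk hx h4 h5
      · rintro (rfl | rfl)
        · exact ⟨hx, rfl⟩
        · exact ⟨good_swap G L R hx, toSub_swap G L R x⟩
    rw [h3]
    exact Finset.card_pair (swap_ne hk hx).symm
  · intro x hx
    have hx' : Good G L R k x := by
      simpa using hx
    rw [Finset.mem_coe, Finset.mem_filter]
    exact ⟨Finset.mem_univ _, toSub_iso hL hR hLR hk hx'⟩

end Count

end Pairs

/-- CYCLES. -/
theorem cycles : CyclesStatement := by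
  intro α β V _ _ _ _ _ _ G _ e hLL hRR k hk
  have hL : Function.Injective (fun a : α => e (Sum.inl a)) :=
    fun a a' h => Sum.inl_injective (e.injective h)
  have hR : Function.Injective (fun b : β => e (Sum.inr b)) :=
    fun a a' h => Sum.inr_injective (e.injective h)
  have hLR : ∀ a b, (fun a : α => e (Sum.inl a)) a ≠ (fun b : β => e (Sum.inr b)) b :=
    fun a b h => Sum.inl_ne_inr (e.injective h)
  have hcov : ∀ v, (∃ a, v = (fun a : α => e (Sum.inl a)) a) ∨
      (∃ b, v = (fun b : β => e (Sum.inr b)) b) := by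
    intro v
    obtain ⟨s, rfl⟩ := e.surjective v
    cases s with
    | inl a => exact Or.inl ⟨a, rfl⟩
    | inr b => exact Or.inr ⟨b, rfl⟩
  have h1 := pairSum_eq (G := G) (L := fun a : α => e (Sum.inl a))
    (R := fun b : β => e (Sum.inr b)) k
  have h2 := card_good (G := G) hL hR hLR hcov hLL hRR hk
  rw [h2] at h1
  push_cast at h1
  rw [← h1]
  congr!

end Pool.Agent.Lib.MP_b2ebfc_lc.H75
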