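import Pool.Agent.Lib.MP_b2ebfc_lc.Base

/-!
# Module BIRD: Bird's division-free determinant algorithm
-/

set_option autoImplicit false

namespace Pool.Agent.Lib.MP_b2ebfc_lc.H75

open Finset Pool.Agent.Lib.MP_b2ebfc_lc

section Dets

variable {n : Type*} [Fintype n] [DecidableEq n] {R : Type*} [CommRing R]

/-- The matrix with rows `X r` for `r ∈ insert i s` (column `i` replaced by column `j`) and unit
rows elsewhere. -/
def eMat (X : n → n → R) (i j : n) (s : Finset n) : Matrix n n R :=
  Matrix.of fun r c => if r ∈ insert i s then X r (if c = i then j else c) else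
    if r = c then 1 else 0

/-- The determinant of the rows `insert i s` and columns `insert j s`. -/
def eDet (X : n → n → R) (i j : n) (s : Finset n) : R := (eMat X i j s).det

/-- The matrix with rows `X r` for `r ∈ s` and unit rows elsewhere. -/
def pMat (X : n → n → R) (s : Finset n) : Matrix n n R :=
  Matrix.of fun r c => if r ∈ s then X r c else if r = c then 1 else 0

/-- The principal minor on `s`. -/
def pDet (X : n → n → R) (s : Finset n) : R := (pMat X s).det

lemma eDet_self (X : n → n → R) (m : n) (s : Finset n) :
    eDet X m m s = pDet X (insert m s) := by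
  unfold eDet pDet
  congr 1
  ext r c
  simp only [eMat, pMat, Matrix.of_apply]
  by_cases hr : r ∈ insert m s
  · rw [if_pos hr, if_pos hr]
    by_cases hc : c = m
    · rw [if_pos hc, hc]
    · rw [if_neg hc]
  · rw [if_neg hr, if_neg hr]

lemma eDet_zero (X : n → n → R) {i l : n} {s : Finset n} (hi : i ∉ s) (hl : l ∈ s) :
    eDet X i l s = 0 := by
  have hil : i ≠ l := fun h => hi (h ▸ hl)
  apply Matrix.det_zero_of_column_eq hil
  intro r
  simp only [eMat, Matrix.of_apply]
  by_cases hr : r ∈ insert i s
  · simp [hr, hil.symm]
  · have h1 : r ≠ i := fun h => hr (by simp [h])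
    have h2 : r ≠ l := fun h => hr (by simp [h, hl])
    simp only [hr, if_false, h1, h2]

lemma pDet_empty (X : n → n → R) : pDet X ∅ = 1 := by
  unfold pDet
  have : pMat X ∅ = 1 := by
    ext r c
    simp [pMat, Matrix.one_apply]
  rw [this, Matrix.det_one]

lemma pDet_univ (X : n → n → R) : pDet X univ = (Matrix.of X).det := by
  unfold pDet
  congr 1
  ext r c
  simp [pMat]

/-- Expansion along the replaced column. -/
lemma eDet_expand (X : n → n → R) {i j : n} {s : Finset n} (hi : i ∉ s) :
    eDet X i j s = X i j * pDet X s - ∑ l ∈ s, X l j * eDet X i l (s.erase l) := by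
  have h0 : eDet X i j s = ∑ r, eMat X i j s r i * (eMat X i j s).adjugate i r :=
    Matrix.det_eq_sum_mul_adjugate_col _ _
  -- the entry in column `i`
  have hent : ∀ r, eMat X i j s r i = if r ∈ insert i s then X r j else 0 := by
    intro r
    simp only [eMat, Matrix.of_apply, if_true]
    by_cases hr : r ∈ insert i s
    · simp [hr]
    · have h1 : r ≠ i := fun h => hr (by simp [h])
      rw [if_neg hr, if_neg hr, if_neg h1]
  have hadji : (eMat X i j s).adjugate i i = pDet X s := by
    rw [Matrix.adjugate_apply]
    unfold pDet
    symm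
    apply Matrix.det_eq_of_forall_row_eq_smul_add_const
      (fun r => if r ∈ s then X r i - X r j else 0) i (by simp [hi])
    intro r c
    by_cases hri : r = i
    · subst hri
      simp only [pMat, Matrix.of_apply, hi, if_false, Matrix.updateRow_self, zero_mul, add_zero]
      rw [Pi.single_apply]
      simp only [eq_comm]
    · rw [Matrix.updateRow_ne hri, Matrix.updateRow_self]
      simp only [pMat, eMat, Matrix.of_apply, Finset.mem_insert, hri, false_or, Pi.single_apply]
      by_cases hrs : r ∈ s
      · simp only [hrs, if_true]
        by_cases hc : c = i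
        · subst hc; simp
        · simp [hc]
      · simp [hrs]
  have hadjl : ∀ l ∈ s, (eMat X i j s).adjugate i l = - eDet X i l (s.erase l) := by
    intro l hl
    have hil : i ≠ l := fun h => hi (h ▸ hl)
    rw [Matrix.adjugate_apply]
    have hsw : (((eMat X i j s).updateRow l (Pi.single i 1)).submatrix id
        (Equiv.swap i l)).det = - ((eMat X i j s).updateRow l (Pi.single i 1)).det := by
      rw [Matrix.det_permute', Equiv.Perm.sign_swap hil]
      simp
    rw [eq_neg_iff_add_eq_zero, ← neg_eq_iff_add_eq_zero, ← hsw]
    unfold eDet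
    apply Matrix.det_eq_of_forall_row_eq_smul_add_const
      (fun r => if r ∈ insert i (s.erase l) then X r j - X r l else 0) l
      (by simp [hil.symm])
    intro r c
    rw [Matrix.submatrix_apply, id]
    have hmem : l ∉ insert i (s.erase l) := by simp [hil.symm]
    have hEl : ∀ c, eMat X i l (s.erase l) l c = if l = c then 1 else 0 := by
      intro c
      simp only [eMat, Matrix.of_apply, if_neg hmem]
    rw [hEl]
    by_cases hrl : r = l
    · subst hrl
      rw [Matrix.updateRow_self, hEl, if_neg hmem]
      rw [Pi.single_apply]
      by_cases hc : c = r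
      · subst hc; simp
      · have h1 : Equiv.swap i r c ≠ i := by
          intro h
          apply hc
          have := congrArg (Equiv.swap i r) h
          rwa [Equiv.swap_apply_self, Equiv.swap_apply_left] at this
        rw [if_neg h1, if_neg (fun h => hc h.symm)]
        simp
    · rw [Matrix.updateRow_ne hrl]
      simp only [eMat, Matrix.of_apply]
      have hiff : (r ∈ insert i s) ↔ (r ∈ insert i (s.erase l)) := by
        simp [hrl]
      by_cases hrs : r ∈ insert i (s.erase l)
      · rw [if_pos (hiff.2 hrs), if_pos hrs, if_pos hrs]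
        by_cases hc : c = l
        · subst hc
          rw [Equiv.swap_apply_right, if_pos rfl, if_pos rfl, if_neg hil.symm]
          ring
        · by_cases hc2 : c = i
          · subst hc2
            rw [Equiv.swap_apply_left, if_neg hil.symm, if_pos rfl, if_neg (fun h => hc h.symm)]
            ring
          · rw [Equiv.swap_apply_of_ne_of_ne hc2 hc, if_neg hc2, if_neg hc2,
              if_neg (fun h => hc h.symm)]
            ring
      · rw [if_neg (fun h => hrs (hiff.1 h)), if_neg hrs, if_neg hrs]
        have hri : r ≠ i := fun h => hrs (by simp [h])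
        simp only [zero_mul, add_zero]
        by_cases hc : c = l
        · subst hc
          rw [Equiv.swap_apply_right, if_neg hri, if_neg hrl]
        · by_cases hc2 : c = i
          · subst hc2
            rw [Equiv.swap_apply_left, if_neg hrl, if_neg hri]
          · rw [Equiv.swap_apply_of_ne_of_ne hc2 hc]
  rw [h0]
  have h1 : ∀ r, eMat X i j s r i * (eMat X i j s).adjugate i r =
      if r ∈ insert i s then X r j * (eMat X i j s).adjugate i r else 0 := by
    intro r
    rw [hent r]
    split_ifs <;> simp
  rw [Finset.sum_congr rfl (fun r _ => h1 r), Finset.sum_ite_mem, Finset.univ_inter,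
    Finset.sum_insert hi, hadji, sub_eq_add_neg, ← Finset.sum_neg_distrib]
  congr 1
  apply Finset.sum_congr rfl
  intro l hl
  rw [hadjl l hl]
  ring

end Dets

section Sums

variable {n : Type*} [DecidableEq n] {R : Type*} [AddCommMonoid R]

/-- Removing a marked element. -/
lemma sum_erase (I : Finset n) (p : ℕ) (f : n → Finset n → R) :
    ∑ s ∈ powersetCard (p + 1) I, ∑ l ∈ s, f l (s.erase l) =
      ∑ l ∈ I, ∑ t ∈ powersetCard p (I.erase l), f l t := by
  rw [Finset.sum_sigma', Finset.sum_sigma']
  refine Finset.sum_bij' (fun x _ => ⟨x.2, x.1.erase x.2⟩) (fun x _ => ⟨insert x.1 x.2, x.1⟩)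
    ?_ ?_ ?_ ?_ ?_
  · rintro ⟨s, l⟩ h
    simp only [Finset.mem_sigma, Finset.mem_powersetCard] at h ⊢
    obtain ⟨⟨h1, h2⟩, h3⟩ := h
    refine ⟨h1 h3, Finset.erase_subset_erase _ h1, ?_⟩
    rw [Finset.card_erase_of_mem h3, h2]; rfl
  · rintro ⟨l, t⟩ h
    simp only [Finset.mem_sigma, Finset.mem_powersetCard] at h ⊢
    obtain ⟨h1, h2, h3⟩ := h
    have hl : l ∉ t := fun h => (Finset.mem_erase.1 (h2 h)).1 rfl
    refine ⟨⟨Finset.insert_subset h1 (h2.trans (Finset.erase_subset _ _)), ?_⟩,
      Finset.mem_insert_self _ _⟩
    rw [Finset.card_insert_of_notMem hl, h3]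
  · rintro ⟨s, l⟩ h
    simp only [Finset.mem_sigma, Finset.mem_powersetCard] at h
    simp [Finset.insert_erase h.2]
  · rintro ⟨l, t⟩ h
    simp only [Finset.mem_sigma, Finset.mem_powersetCard] at h
    have hl : l ∉ t := fun h' => (Finset.mem_erase.1 (h.2.1 h')).1 rfl
    simp [Finset.erase_insert hl]
  · rintro ⟨s, l⟩ h
    rfl

/-- Splitting off the least element. -/
lemma sum_min {b : ℕ} (i : Fin b) (p : ℕ) (f : Finset (Fin b) → R) :
    ∑ s ∈ powersetCard (p + 1) (univ.filter (i < ·)), f s =
      ∑ m ∈ univ.filter (i < ·), ∑ t ∈ powersetCard p (univ.filter (m < ·)), f (insert m t) := by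
  rw [Finset.sum_sigma']
  symm
  refine Finset.sum_bij (fun x _ => insert x.1 x.2) ?_ ?_ ?_ ?_
  · rintro ⟨m, t⟩ h
    simp only [Finset.mem_sigma, Finset.mem_powersetCard, Finset.mem_filter, Finset.mem_univ,
      true_and] at h ⊢
    obtain ⟨h1, h2, h3⟩ := h
    have hm : m ∉ t := fun h => by simpa using h2 h
    refine ⟨?_, by rw [Finset.card_insert_of_notMem hm, h3]⟩
    intro x hx
    rw [Finset.mem_insert] at hx
    rcases hx with rfl | hx
    · simpa using h1
    · have := h2 hx
      simp only [Finset.mem_filter, Finset.mem_univ, true_and] at this ⊢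
      exact h1.trans this
  · rintro ⟨m, t⟩ h ⟨m', t'⟩ h' heq
    simp only [Finset.mem_sigma, Finset.mem_powersetCard, Finset.mem_filter, Finset.mem_univ,
      true_and] at h h' heq
    have hm : m ∉ t := fun h'' => by simpa using h.2.1 h''
    have hm' : m' ∉ t' := fun h'' => by simpa using h'.2.1 h''
    have e1 : m = m' := by
      have a1 : m ∈ insert m' t' := heq ▸ Finset.mem_insert_self m t
      have a2 : m' ∈ insert m t := heq ▸ Finset.mem_insert_self m' t'
      rcases Finset.mem_insert.1 a1 with h1 | h1
      · exact h1
      · rcases Finset.mem_insert.1 a2 with h2 | h2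
        · exact h2.symm
        · have c1 := h'.2.1 h1
          have c2 := h.2.1 h2
          simp only [Finset.mem_filter, Finset.mem_univ, true_and] at c1 c2
          exact absurd (c1.trans c2) (lt_irrefl _)
    subst e1
    have e2 : t = t' := by
      rw [← Finset.erase_insert hm, ← Finset.erase_insert hm', heq]
    subst e2
    rfl
  · intro s hs
    simp only [Finset.mem_powersetCard] at hs
    obtain ⟨h1, h2⟩ := hs
    have hne : s.Nonempty := by
      rw [← Finset.card_pos, h2]; omega
    refine ⟨⟨s.min' hne, s.erase (s.min' hne)⟩, ?_, Finset.insert_erase (Finset.min'_mem s hne)⟩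
    simp only [Finset.mem_sigma, Finset.mem_powersetCard]
    refine ⟨h1 (Finset.min'_mem _ _), ?_, ?_⟩
    · intro x hx
      simp only [Finset.mem_filter, Finset.mem_univ, true_and]
      exact Finset.min'_lt_of_mem_erase_min' s hne hx
    · rw [Finset.card_erase_of_mem (Finset.min'_mem _ _), h2]; rfl
  · rintro ⟨m, t⟩ h
    rfl

end Sums

section Main

variable {b : ℕ} {R : Type*} [CommRing R]

/-- The entries of the matrices in Bird's algorithm. -/
lemma bird_entry (X : Fin b → Fin b → R) (p : ℕ) : ∀ i j : Fin b,
    ((birdStep X)^[p] X) i j =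
      (-1) ^ p * ∑ s ∈ powersetCard p (univ.filter (i < ·)), eDet X i j s := by
  induction p with
  | zero =>
    intro i j
    rw [Function.iterate_zero, id, Finset.powersetCard_zero, Finset.sum_singleton,
      eDet_expand X (Finset.notMem_empty _), pDet_empty]
    simp
  | succ p ih =>
    intro i j
    rw [Function.iterate_succ_apply']
    set F := (birdStep X)^[p] X with hF
    -- the diagonal sum
    have hdiag : (∑ m : Fin b, if i < m then F m m else 0) =
        (-1) ^ p * ∑ s ∈ powersetCard (p + 1) (univ.filter (i < ·)), pDet X s := by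
      rw [sum_min, ← Finset.sum_filter, Finset.mul_sum]
      apply Finset.sum_congr rfl
      intro m _
      rw [ih m m]
      congr 1
      apply Finset.sum_congr rfl
      intro t _
      exact eDet_self X m t
    have hoff : (∑ l : Fin b, (if i < l then F i l else 0) * X l j) =
        (-1) ^ p * ∑ s ∈ powersetCard (p + 1) (univ.filter (i < ·)),
          ∑ l ∈ s, X l j * eDet X i l (s.erase l) := by
      rw [sum_erase (univ.filter (i < ·)) p (fun l t => X l j * eDet X i l t)]
      have e1 : ∀ l : Fin b, (if i < l then F i l else 0) * X l j =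
          if i < l then F i l * X l j else 0 := by
        intro l; split_ifs <;> simp
      rw [Finset.sum_congr rfl (fun l _ => e1 l), ← Finset.sum_filter, Finset.mul_sum]
      apply Finset.sum_congr rfl
      intro l _
      rw [ih i l, ← Finset.mul_sum]
      have hsub : powersetCard p ((univ.filter (i < ·)).erase l) ⊆
          powersetCard p (univ.filter (i < ·)) :=
        Finset.powersetCard_mono (Finset.erase_subset _ _)
      rw [Finset.sum_subset hsub (f := fun t => eDet X i l t)]
      · ring
      · intro t ht1 ht2
        rw [Finset.mem_powersetCard] at ht1 ht2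
        have hl : l ∈ t := by
          by_contra hl
          apply ht2
          refine ⟨fun x hx => Finset.mem_erase.2 ⟨fun h => hl (h ▸ hx), ht1.1 hx⟩, ht1.2⟩
        have hi : i ∉ t := fun h => by simpa using ht1.1 h
        exact eDet_zero X hi hl
    have hstep : birdStep X F i j = (∑ l : Fin b, (if i < l then F i l else 0) * X l j) -
        (∑ m : Fin b, if i < m then F m m else 0) * X i j := by
      unfold birdStep
      have e2 : ∀ l : Fin b, (if i < l then F i l else if l < i then 0 else
          -(∑ m : Fin b, if i < m then F m m else 0)) * X l j =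
          (if i < l then F i l else 0) * X l j +
            (if l = i then -(∑ m : Fin b, if i < m then F m m else 0) * X l j else 0) := by
        intro l
        rcases lt_trichotomy i l with h | h | h
        · simp [h, h.ne']
        · subst h; simp
        · simp [h, not_lt_of_gt h, h.ne]
      rw [Finset.sum_congr rfl (fun l _ => e2 l), Finset.sum_add_distrib,
        Finset.sum_ite_eq' univ i]
      simp [sub_eq_add_neg]
    rw [hstep, hoff, hdiag]
    have hexp : ∑ s ∈ powersetCard (p + 1) (univ.filter (i < ·)), eDet X i j s =
        X i j * ∑ s ∈ powersetCard (p + 1) (univ.filter (i < ·)), pDet X s -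
          ∑ s ∈ powersetCard (p + 1) (univ.filter (i < ·)),
            ∑ l ∈ s, X l j * eDet X i l (s.erase l) := by
      rw [Finset.mul_sum, ← Finset.sum_sub_distrib]
      apply Finset.sum_congr rfl
      intro s hs
      rw [Finset.mem_powersetCard] at hs
      have hi : i ∉ s := fun h => by simpa using hs.1 h
      exact eDet_expand X hi
    rw [hexp]
    ring

/-- BIRD. -/
theorem bird : BirdStatement := by
  intro R _ b X
  rw [bird_entry]
  congr 1
  have h0 : (univ.filter ((0 : Fin (b + 1)) < ·)) = univ.erase 0 := by
    ext x
    simp [Fin.pos_iff_ne_zero]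
  have hc : (univ.erase (0 : Fin (b + 1))).card = b := by
    rw [Finset.card_erase_of_mem (Finset.mem_univ _)]; simp
  rw [h0]
  have h1 : powersetCard b (univ.erase (0 : Fin (b + 1))) = {univ.erase 0} := by
    have h2 := Finset.powersetCard_self (univ.erase (0 : Fin (b + 1)))
    rw [hc] at h2
    exact h2
  rw [h1, Finset.sum_singleton, eDet_self, Finset.insert_erase (Finset.mem_univ _), pDet_univ]

end Main

end Pool.Agent.Lib.MP_b2ebfc_lc.H75
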